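import Pool.Agent.Lib.MP_b64830.Complex

/-!
# A certificate for a drop of rank modulo `p`
-/

namespace Pool.Agent.Lib.MP_b64830

open MvPolynomial

variable {r d : ℕ}

/-- total exponent of a set of monomials -/
noncomputable def tot (F : Finset (Mon r d)) : Fin (r + 1) →₀ ℕ := ∑ m ∈ F, ex m

lemma degree_tot (F : Finset (Mon r d)) : (tot F).degree = F.card * d := by
  unfold tot
  rw [map_sum]
  simp [degree_ex]

lemma tot_erase {F : Finset (Mon r d)} {f : Mon r d} (hf : f ∈ F) :
    tot (F.erase f) + ex f = tot F := by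
  unfold tot
  exact Finset.sum_erase_add F _ hf

lemma uv_apply (F : Finset (Mon r d)) (b : Fin (r + 1) →₀ ℕ) (G : Finset (Mon r d))
    (b' : Fin (r + 1) →₀ ℕ) : uv (F, b) (G, b') =
    ∑ f ∈ F, if F.erase f = G ∧ b + ex f = b' then sg F f else 0 := by
  classical
  unfold uv
  rw [Finset.sum_apply]
  refine Finset.sum_congr rfl fun f _ => ?_
  simp only [Pi.smul_apply, smul_eq_mul]
  by_cases h : F.erase f = G ∧ b + ex f = b'
  · rw [if_pos h, ← h.1, ← h.2, Pi.single_eq_same, mul_one]
  · rw [if_neg h, Pi.single_eq_of_ne, mul_zero]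
    intro h'
    exact h ⟨(Prod.ext_iff.1 h').1.symm, (Prod.ext_iff.1 h').2.symm⟩

theorem rk_lt_of_cert {k K : Type*} [Field k] [Field K] [CharZero K] (p : ℕ) [CharP k p]
    [hp : Fact p.Prime] (i j : ℕ) (hij : i + 1 ≤ j) (a : Fin (r + 1) →₀ ℕ) (ha : a.degree = d * j)
    (w φ : Finset (Mon r d) → ℤ)
    (h1 : ∀ F, w F ≠ 0 → F.card = i + 1 ∧ tot F ≤ a)
    (h1' : ∀ G, φ G ≠ 0 → tot G ≤ a)
    (h2 : ∀ G, (p : ℤ) ∣ ∑ f ∈ Finset.univ.filter (fun f => f ∉ G), sg G f * w (insert f G))
    (h3 : ∀ F, tot F ≤ a → (p : ℤ) ∣ ∑ f ∈ F, sg F f * φ (F.erase f))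
    (h4 : ¬ (p : ℤ) ^ 2 ∣ ∑ F, w F * ∑ f ∈ F, sg F f * φ (F.erase f)) :
    rk k (fun s : Idx r d (i + 1) j => uv s.1) < rk K (fun s : Idx r d (i + 1) j => uv s.1) := by
  classical
  have _ := Fintype.ofFinite (Idx r d (i + 1) j)
  -- the index of `F`
  have hidx : ∀ F : Finset (Mon r d), F.card = i + 1 → tot F ≤ a →
      (F.card = i + 1 ∧ i + 1 ≤ j) ∧ (a - tot F).degree = d * (j - (i + 1)) := by
    intro F hF hFa
    refine ⟨⟨hF, hij⟩, ?_⟩
    have h5 : (a - tot F).degree + (tot F).degree = a.degree := by
      rw [← map_add, tsub_add_cancel_of_le hFa]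
    rw [degree_tot, hF, ha] at h5
    have h6 : j = (j - (i + 1)) + (i + 1) := by omega
    have h7 : d * j = d * (j - (i + 1)) + (i + 1) * d := by
      conv_lhs => rw [h6]
      ring
    omega
  -- the combination
  set wI : Idx r d (i + 1) j → ℤ := fun s =>
    if s.1.2 = a - tot s.1.1 ∧ tot s.1.1 ≤ a then w s.1.1 else 0 with hwI
  set v : Finset (Mon r d) × (Fin (r + 1) →₀ ℕ) → ℤ := ∑ s, wI s • uv s.1 with hv
  have hv' : v = ∑ F, w F • uv (F, a - tot F) := by
    rw [hv]
    have h5 : ∑ F, w F • uv (F, a - tot F) = ∑ F ∈ Finset.univ.filter (fun F => w F ≠ 0),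
        w F • uv (F, a - tot F) := by
      rw [Finset.sum_filter_of_ne]
      intro F _ h h'
      rw [h', zero_smul] at h
      exact h rfl
    have h6 : ∑ s, wI s • uv s.1 = ∑ s ∈ Finset.univ.filter (fun s => wI s ≠ 0),
        wI s • uv s.1 := by
      rw [Finset.sum_filter_of_ne]
      intro s _ h h'
      rw [h', zero_smul] at h
      exact h rfl
    rw [h5, h6]
    refine Finset.sum_bij (fun s _ => s.1.1) ?_ ?_ ?_ ?_
    · intro s hs
      simp only [Finset.mem_filter, Finset.mem_univ, true_and] at hs ⊢
      rw [hwI] at hs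
      by_contra h7
      apply hs
      simp only
      split_ifs
      · exact h7
      · rfl
    · intro s hs s' hs' h7
      simp only [Finset.mem_filter, Finset.mem_univ, true_and] at hs hs'
      have h8 : s.1.2 = a - tot s.1.1 := by
        by_contra h9
        apply hs
        rw [hwI]
        simp only
        rw [if_neg (fun h => h9 h.1)]
      have h8' : s'.1.2 = a - tot s'.1.1 := by
        by_contra h9
        apply hs'
        rw [hwI]
        simp only
        rw [if_neg (fun h => h9 h.1)]
      apply Subtype.ext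
      apply Prod.ext
      · exact h7
      · rw [h8, h8', h7]
    · intro F hF
      simp only [Finset.mem_filter, Finset.mem_univ, true_and] at hF
      obtain ⟨h7, h8⟩ := h1 F hF
      refine ⟨⟨(F, a - tot F), hidx F h7 h8⟩, ?_, rfl⟩
      simp only [Finset.mem_filter, Finset.mem_univ, true_and, hwI]
      rw [if_pos h8]
      exact hF
    · intro s hs
      simp only [Finset.mem_filter, Finset.mem_univ, true_and] at hs
      have h8 : s.1.2 = a - tot s.1.1 ∧ tot s.1.1 ≤ a := by
        by_contra h9
        apply hs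
        rw [hwI]
        simp only
        rw [if_neg h9]
      have h9 : wI s = w s.1.1 := by
        rw [hwI]
        simp only
        rw [if_pos h8]
      rw [h9, ← h8.1]
  -- values of `v`
  have hval : ∀ G b', v (G, b') = if b' = a - tot G ∧ tot G ≤ a then
      ∑ f ∈ Finset.univ.filter (fun f => f ∉ G), sg G f * w (insert f G) else 0 := by
    intro G b'
    rw [hv', Finset.sum_apply]
    have h5 : ∀ F, (w F • uv (F, a - tot F)) (G, b') =
        ∑ f ∈ F, if F.erase f = G ∧ b' = a - tot G ∧ tot G ≤ a then sg F f * w F else 0 := by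
      intro F
      rw [Pi.smul_apply, uv_apply, smul_eq_mul, Finset.mul_sum]
      refine Finset.sum_congr rfl fun f hf => ?_
      by_cases hw : w F = 0
      · rw [hw]; simp
      · obtain ⟨_, h6⟩ := h1 F hw
        have h7 : a - tot F + ex f = a - tot (F.erase f) := by
          have h8 := tot_erase hf
          ext x
          have h9 := h6 x
          have h10 := DFunLike.congr_fun h8 x
          simp only [Finsupp.coe_add, Finsupp.coe_tsub, Pi.add_apply, Pi.sub_apply] at *
          omega
        have h11 : tot (F.erase f) ≤ a := by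
          refine le_trans ?_ h6
          rw [← tot_erase hf]
          exact le_self_add
        by_cases h12 : F.erase f = G
        · rw [← h12]
          by_cases h13 : b' = a - tot (F.erase f)
          · rw [if_pos ⟨rfl, h7.trans h13.symm⟩, if_pos ⟨rfl, h13, h11⟩]
            ring
          · rw [if_neg (fun h => h13 (h.2.symm.trans h7)), if_neg (fun h => h13 h.2.1)]
            ring
        · rw [if_neg (fun h => h12 h.1), if_neg (fun h => h12 h.1)]
          ring
    rw [Finset.sum_congr rfl fun F _ => h5 F]
    by_cases hb : b' = a - tot G ∧ tot G ≤ a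
    · rw [if_pos hb]
      rw [Finset.sum_sigma']
      have h6 : ∀ x ∈ (Finset.univ : Finset (Finset (Mon r d))).sigma (fun F => F),
          (if x.1.erase x.2 = G ∧ b' = a - tot G ∧ tot G ≤ a then sg x.1 x.2 * w x.1 else 0) =
          (if x.1.erase x.2 = G then sg x.1 x.2 * w x.1 else 0) := by
        intro x _
        simp [hb.1, hb.2]
      rw [Finset.sum_congr rfl h6, ← Finset.sum_filter]
      refine Finset.sum_bij (fun x _ => x.2) ?_ ?_ ?_ ?_
      · rintro ⟨F, f⟩ hx
        simp only [Finset.mem_filter, Finset.mem_sigma, Finset.mem_univ, true_and] at hx ⊢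
        rw [← hx.2]
        exact Finset.notMem_erase _ _
      · rintro ⟨F, f⟩ hx ⟨F', f'⟩ hx' h7
        simp only [Finset.mem_filter, Finset.mem_sigma, Finset.mem_univ, true_and] at hx hx' h7
        subst h7
        have h8 : F = F' := by
          rw [← Finset.insert_erase hx.1, ← Finset.insert_erase hx'.1, hx.2, hx'.2]
        subst h8
        rfl
      · intro f hf
        simp only [Finset.mem_filter, Finset.mem_univ, true_and] at hf
        exact ⟨⟨insert f G, f⟩, by simp [hf], rfl⟩
      · rintro ⟨F, f⟩ hx
        simp only [Finset.mem_filter, Finset.mem_sigma, Finset.mem_univ, true_and] at hx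
        simp only
        rw [← hx.2, Finset.insert_erase hx.1, sg_erase]
    · rw [if_neg hb]
      refine Finset.sum_eq_zero fun F _ => Finset.sum_eq_zero fun f _ => ?_
      rw [if_neg (fun h => hb h.2)]
  have hdvd : ∀ x, (p : ℤ) ∣ v x := by
    rintro ⟨G, b'⟩
    rw [hval]
    split_ifs
    · exact h2 G
    · exact dvd_zero _
  choose z hz using hdvd
  -- the functional
  set Φ : (Finset (Mon r d) × (Fin (r + 1) →₀ ℕ) → k) →ₗ[k] k :=
    ∑ G, (φ G : k) • LinearMap.proj (G, a - tot G) with hΦ
  have hΦcast : ∀ y : Finset (Mon r d) × (Fin (r + 1) →₀ ℕ) → ℤ,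
      Φ (castV k y) = ((∑ G, φ G * y (G, a - tot G) : ℤ) : k) := by
    intro y
    rw [hΦ]
    simp
  refine rk_lt p (fun s : Idx r d (i + 1) j => uv s.1) wI z ?_ Φ ?_ ?_
  · rw [← hv]
    funext x
    rw [hz x]
    simp
  · rintro ⟨⟨F, b⟩, hs⟩
    rw [hΦcast, CharP.intCast_eq_zero_iff k p]
    have h5 : ∑ G, φ G * uv (F, b) (G, a - tot G) =
        ∑ f ∈ F, if tot (F.erase f) ≤ a ∧ b + ex f = a - tot (F.erase f) then
          sg F f * φ (F.erase f) else 0 := by
      simp only [uv_apply, Finset.mul_sum]
      rw [Finset.sum_comm]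
      refine Finset.sum_congr rfl fun f _ => ?_
      rw [Finset.sum_eq_single (F.erase f)]
      · by_cases h6 : φ (F.erase f) = 0
        · rw [h6]; simp
        · have h7 := h1' _ h6
          by_cases h8 : b + ex f = a - tot (F.erase f)
          · rw [if_pos ⟨rfl, h8⟩, if_pos ⟨h7, h8⟩]; ring
          · rw [if_neg (fun h => h8 h.2), if_neg (fun h => h8 h.2)]; ring
      · intro G _ hG
        rw [if_neg (fun h => hG h.1.symm), mul_zero]
      · intro h; exact absurd (Finset.mem_univ _) h
    simp only at h5 ⊢
    rw [h5]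
    by_cases h6 : tot F ≤ a ∧ b = a - tot F
    · have h7 : ∀ f ∈ F, (if tot (F.erase f) ≤ a ∧ b + ex f = a - tot (F.erase f) then
          sg F f * φ (F.erase f) else 0) = sg F f * φ (F.erase f) := by
        intro f hf
        rw [if_pos]
        have h8 := tot_erase hf
        refine ⟨?_, ?_⟩
        · refine le_trans ?_ h6.1
          rw [← h8]
          exact le_self_add
        · rw [h6.2]
          ext x
          have h9 := h6.1 x
          have h10 := DFunLike.congr_fun h8 x
          simp only [Finsupp.coe_add, Finsupp.coe_tsub, Pi.add_apply, Pi.sub_apply] at *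
          omega
      rw [Finset.sum_congr rfl h7]
      exact h3 F h6.1
    · rw [Finset.sum_eq_zero]
      · exact dvd_zero _
      · intro f hf
        rw [if_neg]
        rintro ⟨h7, h8⟩
        apply h6
        have h9 := tot_erase hf
        have h10 : ∀ x, b x + ex f x = a x - tot (F.erase f) x := fun x => by
          have := DFunLike.congr_fun h8 x
          simpa using this
        have h11 : ∀ x, tot (F.erase f) x + ex f x = tot F x := fun x => by
          have := DFunLike.congr_fun h9 x
          simpa using this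
        refine ⟨fun x => ?_, ?_⟩
        · have := h10 x; have := h11 x; have := h7 x; omega
        · ext x
          have := h10 x; have := h11 x; have := h7 x
          simp only [Finsupp.coe_tsub, Pi.sub_apply]
          omega
  · rw [hΦcast, Ne, CharP.intCast_eq_zero_iff k p]
    intro h5
    apply h4
    have h6 : ∑ F, w F * ∑ f ∈ F, sg F f * φ (F.erase f) = ∑ G, φ G * v (G, a - tot G) := by
      have h7 : ∀ G, φ G * v (G, a - tot G) =
          φ G * ∑ f ∈ Finset.univ.filter (fun f => f ∉ G), sg G f * w (insert f G) := by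
        intro G
        by_cases h8 : φ G = 0
        · rw [h8]; simp
        · rw [hval, if_pos ⟨rfl, h1' G h8⟩]
      rw [Finset.sum_congr rfl fun G _ => h7 G]
      simp only [Finset.mul_sum]
      rw [Finset.sum_sigma', Finset.sum_sigma']
      refine Finset.sum_bij' (fun x _ => ⟨x.1.erase x.2, x.2⟩) (fun x _ => ⟨insert x.2 x.1, x.2⟩)
        ?_ ?_ ?_ ?_ ?_
      · rintro ⟨F, f⟩ hx
        simp
      · rintro ⟨G, f⟩ hx
        simp
      · rintro ⟨F, f⟩ hx
        simp only [Finset.mem_sigma, Finset.mem_univ, true_and] at hx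
        simp [Finset.insert_erase hx]
      · rintro ⟨G, f⟩ hx
        simp only [Finset.mem_sigma, Finset.mem_univ, true_and, Finset.mem_filter] at hx
        simp [Finset.erase_insert hx]
      · rintro ⟨F, f⟩ hx
        simp only [Finset.mem_sigma, Finset.mem_univ, true_and] at hx
        simp only
        rw [sg_erase, Finset.insert_erase hx]
        ring
    rw [h6]
    have h7 : ∑ G, φ G * v (G, a - tot G) = (p : ℤ) * ∑ G, φ G * z (G, a - tot G) := by
      rw [Finset.mul_sum]
      refine Finset.sum_congr rfl fun G _ => ?_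
      rw [hz]
      ring
    rw [h7, pow_two]
    exact mul_dvd_mul_left _ h5

end Pool.Agent.Lib.MP_b64830
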