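import Pool.Agent.Lib.MP_b64830.Data34

/-!
# Checking the certificate for the 4-uple embedding of projective 3-space
-/

namespace Pool.Agent.Lib.MP_b64830

open MvPolynomial

/-- The exponent vector with index `t`. -/
def vec34 (t : Fin 35) : Fin 4 → ℕ := fun x => (ms34.getD t.val []).getD x.val 0

lemma vec34_sum (t : Fin 35) : ∑ x, vec34 t x = 4 := by
  revert t; decide +kernel

/-- The enumeration of the monomials. -/
def enum34 (t : Fin 35) : Mon 3 4 := ⟨toLex (vec34 t), vec34_sum t⟩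

lemma enum34_strictMono : StrictMono enum34 := by
  rw [Fin.strictMono_iff_lt_succ]
  have h : ∀ i : Fin 34, ∃ a : Fin 4, (∀ b < a, vec34 i.castSucc b = vec34 i.succ b) ∧
      vec34 i.castSucc a < vec34 i.succ a := by decide +kernel
  intro i
  obtain ⟨a, h1, h2⟩ := h i
  exact ⟨a, h1, h2⟩

lemma enum34_surjective : Function.Surjective enum34 := by
  have h : ∀ a b c : Fin 5, a.val + b.val + c.val ≤ 4 →
      ∃ t : Fin 35, vec34 t 0 = a.val ∧ vec34 t 1 = b.val ∧ vec34 t 2 = c.val := by
    decide +kernel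
  intro m
  have hs := m.2
  rw [Fin.sum_univ_four] at hs
  obtain ⟨t, h0, h1, h2⟩ := h ⟨ofLex m.1 0, by omega⟩ ⟨ofLex m.1 1, by omega⟩
    ⟨ofLex m.1 2, by omega⟩ (by simp only; omega)
  refine ⟨t, ?_⟩
  have hv := vec34_sum t
  rw [Fin.sum_univ_four] at hv
  simp only at h0 h1 h2
  apply Subtype.ext
  apply ofLex.injective
  funext x
  show vec34 t x = ofLex m.1 x
  fin_cases x
  · exact h0
  · exact h1
  · exact h2
  · show vec34 t 3 = ofLex m.1 3
    omega

/-- The enumeration of the monomials as an order isomorphism. -/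
noncomputable def iso34 : Fin 35 ≃o Mon 3 4 :=
  enum34_strictMono.orderIsoOfSurjective enum34 enum34_surjective

lemma iso34_exp (x : Fin (3 + 1)) (t : Fin 35) :
    ofLex (iso34 t).1 x = (ms34.getD t.val []).getD x.val 0 := rfl

lemma wt34_degree : (wt 3 al34).degree = 4 * 15 := by
  rw [Finsupp.degree_eq_sum, Fin.sum_univ_four]
  rfl

lemma ms34_len : ∀ m ∈ ms34, m.length = 3 + 1 := by decide +kernel

lemma check_ok_W : Tr.W34.okT ms34 al34 14 = true := by decide +kernel
lemma check_ok_P : Tr.P34.okT ms34 al34 13 = true := by decide +kernel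
lemma check_cycle : Tr.W34.chk 2 1 Tr.nil = true := by decide +kernel
lemma check_cocycle : Tr.P34.chkC 2 1 ms34 al34 Tr.nil = true := by decide +kernel
lemma check_pairing : Nat.beq (Tr.W34.par (2 ^ 2) 1 Tr.P34 % 2 ^ 2) 0 = false := by
  decide +kernel

theorem rk_lt_34 (k K : Type*) [Field k] [CharP k 2] [Field K] [CharZero K] :
    rk k (fun s : Idx 3 4 14 15 => uv s.1) < rk K (fun s : Idx 3 4 14 15 => uv s.1) :=
  haveI : Fact (Nat.Prime 2) := ⟨Nat.prime_two⟩
  cert_dc iso34 ms34 al34 2 13 15 (by norm_num) rfl rfl ms34_len iso34_exp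
    wt34_degree Tr.W34 Tr.P34 check_ok_W check_ok_P check_cycle check_cocycle check_pairing

theorem betti_lt_34 (k K : Type*) [Field k] [CharP k 2] [Field K] [CharZero K] :
    betti K 3 4 13 15 < betti k 3 4 13 15 ∧ betti K 3 4 14 15 < betti k 3 4 14 15 :=
  haveI : Fact (Nat.Prime 2) := ⟨Nat.prime_two⟩
  betti_lt_of_rk_lt k K 2 13 15 (rk_lt_34 k K)

end Pool.Agent.Lib.MP_b64830
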