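import Mathlib

/-!
# Ranks of integer families over fields of different characteristics
-/

namespace Pool.Agent.Lib.MP_b64830

variable {X I : Type*}

/-- Reduction of integer vectors to a commutative ring. -/
def castV (A : Type*) [CommRing A] : (X → ℤ) →+ (X → A) where
  toFun v := fun x => (v x : A)
  map_zero' := by ext x; simp
  map_add' v w := by ext x; simp

@[simp] lemma castV_apply (A : Type*) [CommRing A] (v : X → ℤ) (x : X) :
    castV A v x = (v x : A) := rfl

lemma castV_zsmul (A : Type*) [CommRing A] (n : ℤ) (v : X → ℤ) :
    castV A (n • v) = (n : A) • castV A v := by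
  ext x
  simp

/-- Independence modulo `p` of integer vectors implies independence over `ℤ`. -/
lemma int_indep_of_charP {T k : Type*} [Field k] (p : ℕ) [CharP k p] [hp : Fact p.Prime]
    (v : T → X → ℤ) (h : LinearIndependent k (fun t => castV k (v t))) :
    LinearIndependent ℤ v := by
  classical
  rw [linearIndependent_iff'] at h ⊢
  have key : ∀ n : ℕ, ∀ (s : Finset T) (g : T → ℤ), ∑ i ∈ s, g i • v i = 0 →
      ∀ i ∈ s, ((p : ℤ) ^ n) ∣ g i := by
    intro n
    induction n with
    | zero => intro s g _ i _; simp
    | succ n ih =>
      intro s g hg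
      have h1 : ∀ i ∈ s, (p : ℤ) ∣ g i := by
        intro i hi
        have h2 : ∑ i ∈ s, ((g i : ℤ) : k) • castV k (v i) = 0 := by
          have := congrArg (castV k) hg
          rw [map_sum, map_zero] at this
          simp only [castV_zsmul] at this
          exact this
        have h3 := h s (fun i => ((g i : ℤ) : k)) h2 i hi
        exact (CharP.intCast_eq_zero_iff k p (g i)).1 h3
      choose! g' hg' using h1
      have h4 : ∑ i ∈ s, g' i • v i = 0 := by
        have h5 : (p : ℤ) • ∑ i ∈ s, g' i • v i = 0 := by
          rw [Finset.smul_sum, ← hg]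
          refine Finset.sum_congr rfl fun i hi => ?_
          rw [smul_smul, ← hg' i hi]
        rcases smul_eq_zero.1 h5 with h6 | h6
        · exact absurd h6 (by exact_mod_cast hp.out.ne_zero)
        · exact h6
      intro i hi
      have h7 := ih s g' h4 i hi
      rw [hg' i hi, pow_succ, mul_comm]
      exact mul_dvd_mul_left _ h7
  intro s g hg i hi
  by_contra hne
  have h1 := key (g i).natAbs s g hg i hi
  have h2 : ((p : ℤ) ^ (g i).natAbs).natAbs ∣ (g i).natAbs := Int.natAbs_dvd_natAbs.2 h1
  rw [Int.natAbs_pow, Int.natAbs_natCast] at h2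
  have h3 := Nat.le_of_dvd (Int.natAbs_pos.2 hne) h2
  exact absurd h3 (not_le.2 (Nat.lt_pow_self hp.out.one_lt))

/-- Independence over `ℤ` implies independence over every field of characteristic zero. -/
lemma indep_of_int {T K : Type*} [Field K] [CharZero K]
    (v : T → X → ℤ) (h : LinearIndependent ℤ v) :
    LinearIndependent K (fun t => castV K (v t)) := by
  classical
  -- first over `ℚ`
  have hQ : LinearIndependent ℚ (fun t => castV ℚ (v t)) := by
    rw [← LinearIndependent.iff_fractionRing ℤ ℚ]
    have hinj : Function.Injective (castV ℚ : (X → ℤ) →+ (X → ℚ)) := by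
      intro a b hab
      ext x
      have := congrFun hab x
      simpa using this
    exact h.map_injOn (castV ℚ : (X → ℤ) →+ (X → ℚ)).toIntLinearMap (fun a _ b _ hab => hinj hab)
  rw [linearIndependent_iff'] at hQ ⊢
  intro s g hg i hi
  by_contra hne
  let _ : Algebra ℚ K := DivisionRing.toRatAlgebra
  obtain ⟨f, hf⟩ : ∃ f : Module.Dual ℚ K, f (g i) ≠ 0 := by
    by_contra hcon
    push Not at hcon
    exact hne ((Module.forall_dual_apply_eq_zero_iff ℚ (g i)).1 hcon)
  have h1 : ∑ j ∈ s, f (g j) • castV ℚ (v j) = 0 := by
    ext x
    have h2 := congrFun hg x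
    simp only [Finset.sum_apply, Pi.smul_apply, castV_apply,
      smul_eq_mul, Pi.zero_apply] at h2 ⊢
    have h3 := congrArg f h2
    rw [map_sum, map_zero] at h3
    rw [← h3]
    refine Finset.sum_congr rfl fun j _ => ?_
    have h4 : g j * ((v j x : ℤ) : K) = ((v j x : ℤ) : ℚ) • g j := by
      rw [Algebra.smul_def]
      simp [mul_comm]
    rw [h4, map_smul, smul_eq_mul, mul_comm]
  exact hf (hQ s (fun j => f (g j)) h1 i hi)

/-- The rank over `A` of an integer family. -/
noncomputable def rk (A : Type*) [CommRing A] (u : I → X → ℤ) : ℕ :=
  Module.finrank A (Submodule.span A (Set.range fun i => castV A (u i)))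

section Field

variable {k K : Type*} [Field k] [Field K] [CharZero K] (p : ℕ) [CharP k p] [hp : Fact p.Prime]

include p hp in
theorem rk_le [Finite I] (u : I → X → ℤ) : rk k u ≤ rk K u := by
  classical
  obtain ⟨b, hb, hspan, hind⟩ := exists_linearIndependent k (Set.range fun i => castV k (u i))
  have : ∀ x : b, ∃ i, castV k (u i) = x.1 := fun x => hb x.2
  choose f hf using this
  have hfin : Finite b := Set.Finite.subset (Set.finite_range _) hb
  have _ := Fintype.ofFinite b
  have h1 : LinearIndependent k (fun x : b => castV k (u (f x))) := by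
    have : (fun x : b => castV k (u (f x))) = ((↑) : b → X → k) := funext hf
    rw [this]; exact hind
  have h2 := indep_of_int (K := K) _ (int_indep_of_charP p _ h1)
  have h3 : rk k u = Fintype.card b := by
    unfold rk
    rw [← hspan]
    exact finrank_span_set_eq_card hind |>.trans (by simp [Set.toFinset_card])
  rw [h3]
  have h4 : Module.finrank K (Submodule.span K (Set.range fun x : b => castV K (u (f x)))) =
      Fintype.card b := finrank_span_eq_card h2
  rw [← h4]
  have _ : Module.Finite K (Submodule.span K (Set.range fun i => castV K (u i))) :=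
    Module.Finite.span_of_finite K (Set.finite_range _)
  exact Submodule.finrank_mono (Submodule.span_mono (by rintro _ ⟨x, rfl⟩; exact ⟨f x, rfl⟩))

include hp in
/-- If `p z` is an integer combination of the family but `z` is detected modulo `p` by a functional
vanishing on the family, then the rank drops modulo `p`. -/
theorem rk_lt [Fintype I] (u : I → X → ℤ) (w : I → ℤ) (z : X → ℤ)
    (hw : ∑ i, w i • u i = (p : ℤ) • z) (φ : (X → k) →ₗ[k] k)
    (hφ : ∀ i, φ (castV k (u i)) = 0) (hz : φ (castV k z) ≠ 0) : rk k u < rk K u := by
  classical
  obtain ⟨b, hb, hspan, hind⟩ := exists_linearIndependent k (Set.range fun i => castV k (u i))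
  have : ∀ x : b, ∃ i, castV k (u i) = x.1 := fun x => hb x.2
  choose f hf using this
  have hfin : Finite b := Set.Finite.subset (Set.finite_range _) hb
  have _ := Fintype.ofFinite b
  have h0 : (fun x : b => castV k (u (f x))) = ((↑) : b → X → k) := funext hf
  have h1 : LinearIndependent k (fun x : b => castV k (u (f x))) := by
    rw [h0]; exact hind
  have hzspan : castV k z ∉ Submodule.span k (Set.range fun x : b => castV k (u (f x))) := by
    intro hmem
    have hle : Submodule.span k (Set.range fun x : b => castV k (u (f x))) ≤ LinearMap.ker φ := by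
      rw [Submodule.span_le]
      rintro _ ⟨x, rfl⟩
      exact hφ _
    exact hz (hle hmem)
  have h1' : LinearIndependent k
      (fun o : Option b => castV k (o.elim z (fun x => u (f x)))) := by
    rw [linearIndependent_option]
    exact ⟨h1, hzspan⟩
  have h2 := indep_of_int (K := K) _ (int_indep_of_charP p _ h1')
  have h3 : rk k u = Fintype.card b := by
    unfold rk
    rw [← hspan]
    exact finrank_span_set_eq_card hind |>.trans (by simp [Set.toFinset_card])
  have h4 := finrank_span_eq_card h2
  have _ : Module.Finite K (Submodule.span K (Set.range fun i => castV K (u i))) :=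
    Module.Finite.span_of_finite K (Set.finite_range _)
  have h5 : Module.finrank K (Submodule.span K
      (Set.range fun o : Option b => castV K (o.elim z (fun x => u (f x))))) ≤ rk K u := by
    refine Submodule.finrank_mono ?_
    rw [Submodule.span_le]
    rintro _ ⟨o, rfl⟩
    cases o with
    | some x => exact Submodule.subset_span ⟨f x, rfl⟩
    | none =>
      have hpK : (p : K) ≠ 0 := by exact_mod_cast hp.out.ne_zero
      have h6 : castV K z = (p : K)⁻¹ • ∑ i, (w i : K) • castV K (u i) := by
        have h7 := congrArg (castV K) hw
        rw [map_sum, castV_zsmul] at h7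
        simp only [castV_zsmul] at h7
        rw [h7, smul_smul]
        simp [hpK]
      simp only [Option.elim_none, SetLike.mem_coe]
      rw [h6]
      refine Submodule.smul_mem _ _ (Submodule.sum_mem _ fun i _ => Submodule.smul_mem _ _ ?_)
      exact Submodule.subset_span ⟨i, rfl⟩
  rw [h4, Fintype.card_option] at h5
  omega

end Field

end Pool.Agent.Lib.MP_b64830
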