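import Pool.Agent.Lib.MP_b64830.Defs
import Pool.Agent.Lib.MP_b64830.RankLemma

/-!
# The Koszul complex in coordinates
-/

namespace Pool.Agent.Lib.MP_b64830

open MvPolynomial

variable {r d : ℕ}

/-- exponent vector as a finitely supported function -/
noncomputable def ex {e : ℕ} (m : Mon r e) : Fin (r + 1) →₀ ℕ :=
  Finsupp.equivFunOnFinite.symm (ofLex m.1)

lemma ex_apply {e : ℕ} (m : Mon r e) (i : Fin (r + 1)) : ex m i = ofLex m.1 i := rfl

lemma mono_eq (k : Type*) [CommRing k] {e : ℕ} (m : Mon r e) : mono k m = monomial (ex m) 1 := rfl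

lemma degree_ex {e : ℕ} (m : Mon r e) : (ex m).degree = e := by
  rw [Finsupp.degree_eq_sum]
  exact m.2

/-- basis elements of the Koszul complex -/
noncomputable def E (k : Type*) [CommRing k] (F : Finset (Mon r d)) (b : Fin (r + 1) →₀ ℕ) :
    Finset (Mon r d) → MvPolynomial (Fin (r + 1)) k :=
  Pi.single F (monomial b 1)

/-- the sign -/
noncomputable def sg (G : Finset (Mon r d)) (f : Mon r d) : ℤ := (-1) ^ (G.filter (fun g => g < f)).card

lemma sg_insert_of_lt {G : Finset (Mon r d)} {f g : Mon r d} (hf : f ∉ G) (h : f < g) :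
    sg (insert f G) g = - sg G g := by
  unfold sg
  rw [Finset.filter_insert, if_pos h, Finset.card_insert_of_notMem, pow_succ]
  · ring
  · simp [hf]

lemma sg_insert_of_not_lt {G : Finset (Mon r d)} {f g : Mon r d} (h : ¬ f < g) :
    sg (insert f G) g = sg G g := by
  unfold sg
  rw [Finset.filter_insert, if_neg h]

lemma sg_erase {F : Finset (Mon r d)} {f : Mon r d} : sg (F.erase f) f = sg F f := by
  unfold sg
  congr 2
  ext g
  simp only [Finset.mem_filter, Finset.mem_erase]
  constructor
  · rintro ⟨⟨_, h1⟩, h2⟩; exact ⟨h1, h2⟩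
  · rintro ⟨h1, h2⟩; exact ⟨⟨h2.ne, h1⟩, h2⟩

lemma koszulD_apply (k : Type*) [CommRing k] (c : Finset (Mon r d) → MvPolynomial (Fin (r + 1)) k)
    (G : Finset (Mon r d)) : koszulD k r d c G = ∑ f ∈ Finset.univ.filter (fun f => f ∉ G),
      ((sg G f : ℤ) : MvPolynomial (Fin (r + 1)) k) * (mono k f * c (insert f G)) := by
  simp [koszulD, sg]

lemma koszulD_koszulD (k : Type*) [CommRing k]
    (c : Finset (Mon r d) → MvPolynomial (Fin (r + 1)) k) : koszulD k r d (koszulD k r d c) = 0 := by
  classical
  ext1 G
  rw [koszulD_apply]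
  simp only [koszulD_apply, Finset.mul_sum, Pi.zero_apply]
  rw [Finset.sum_sigma']
  refine Finset.sum_involution (fun p _ => ⟨p.2, p.1⟩) ?_ ?_ ?_ ?_
  · rintro ⟨f, g⟩ hp
    simp only [Finset.mem_sigma, Finset.mem_filter, Finset.mem_univ, true_and,
      Finset.mem_insert, not_or] at hp
    obtain ⟨hf, hgf, hg⟩ := hp
    rw [Finset.insert_comm g f G]
    rcases lt_or_gt_of_ne hgf with h | h
    · -- g < f
      rw [sg_insert_of_not_lt (G := G) (f := f) (g := g) (not_lt.2 h.le), sg_insert_of_lt hg h]
      push_cast
      ring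
    · rw [sg_insert_of_not_lt (G := G) (f := g) (g := f) (not_lt.2 h.le), sg_insert_of_lt hf h]
      push_cast
      ring
  · rintro ⟨f, g⟩ hp _ heq
    simp only [Finset.mem_sigma, Finset.mem_filter, Finset.mem_univ, true_and,
      Finset.mem_insert, not_or] at hp
    simp only [Sigma.mk.injEq] at heq
    exact hp.2.1 heq.1
  · rintro ⟨f, g⟩ hp
    simp only [Finset.mem_sigma, Finset.mem_filter, Finset.mem_univ, true_and,
      Finset.mem_insert, not_or] at hp ⊢
    exact ⟨hp.2.2, fun h => hp.2.1 h.symm, hp.1⟩
  · rintro ⟨f, g⟩ _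
    rfl

lemma koszulD_mem_chains (k : Type*) [CommRing k] {i j : ℕ}
    {c : Finset (Mon r d) → MvPolynomial (Fin (r + 1)) k} (hc : c ∈ chains k r d (i + 1) j) :
    koszulD k r d c ∈ chains k r d i j := by
  classical
  intro G
  rw [koszulD_apply]
  constructor
  · rintro ⟨hG, hij⟩
    rw [← mem_homogeneousSubmodule]
    refine Submodule.sum_mem _ fun f hf => ?_
    have hfG : f ∉ G := by simpa using hf
    by_cases hij' : i + 1 ≤ j
    · have h1 := (hc (insert f G)).1 ⟨by rw [Finset.card_insert_of_notMem hfG, hG], hij'⟩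
      have h2 : (mono k f * c (insert f G)).IsHomogeneous (d * (j - i)) := by
        have h3 : (mono k f).IsHomogeneous d := by
          rw [mono_eq]
          exact isHomogeneous_monomial _ (degree_ex f)
        have h4 := h3.mul h1
        have h5 : d + d * (j - (i + 1)) = d * (j - i) := by
          have : j - i = (j - (i + 1)) + 1 := by omega
          rw [this]; ring
        rwa [h5] at h4
      rw [← mem_homogeneousSubmodule] at h2
      have h6 : ((sg G f : ℤ) : MvPolynomial (Fin (r + 1)) k) * (mono k f * c (insert f G)) =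
          (sg G f) • (mono k f * c (insert f G)) := by
        rw [zsmul_eq_mul]
      rw [h6]
      exact zsmul_mem h2 _
    · have h1 := (hc (insert f G)).2 (by rintro ⟨_, h⟩; exact hij' h)
      rw [h1]
      simp
  · intro hG
    refine Finset.sum_eq_zero fun f hf => ?_
    have hfG : f ∉ G := by simpa using hf
    have h1 := (hc (insert f G)).2 (by
      rintro ⟨h, h'⟩
      rw [Finset.card_insert_of_notMem hfG] at h
      exact hG ⟨by omega, by omega⟩)
    rw [h1]
    simp

lemma boundaries_le_cycles (k : Type*) [CommRing k] (i j : ℕ) :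
    boundaries k r d i j ≤ cycles k r d i j := by
  rintro _ ⟨c, hc, rfl⟩
  exact ⟨koszulD_mem_chains k hc, koszulD_koszulD k c⟩

/-- index set of the monomial basis of `chains k r d i j` -/
abbrev Idx (r d i j : ℕ) : Type :=
  {s : Finset (Mon r d) × (Fin (r + 1) →₀ ℕ) // (s.1.card = i ∧ i ≤ j) ∧ s.2.degree = d * (j - i)}

instance (i j : ℕ) : Finite (Idx r d i j) := by
  have h : Set.Finite {b : Fin (r + 1) →₀ ℕ | b.degree = d * (j - i)} := by
    refine Set.Finite.subset (Finsupp.finite_of_degree_le (d * (j - i))) ?_
    intro b hb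
    exact le_of_eq hb
  have h2 : Set.Finite ((Set.univ : Set (Finset (Mon r d))) ×ˢ
      {b : Fin (r + 1) →₀ ℕ | b.degree = d * (j - i)}) := Set.finite_univ.prod h
  have h3 : Set.Finite {s : Finset (Mon r d) × (Fin (r + 1) →₀ ℕ) |
      (s.1.card = i ∧ i ≤ j) ∧ s.2.degree = d * (j - i)} := by
    refine h2.subset ?_
    rintro ⟨F, b⟩ ⟨_, hb⟩
    exact ⟨Set.mem_univ _, hb⟩
  exact h3.to_subtype

/-- coordinates -/
noncomputable def Co (k : Type*) [CommRing k] :
    (Finset (Mon r d) → MvPolynomial (Fin (r + 1)) k) →ₗ[k]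
      (Finset (Mon r d) × (Fin (r + 1) →₀ ℕ) → k) where
  toFun c := fun x => coeff x.2 (c x.1)
  map_add' c c' := by ext x; simp
  map_smul' a c := by ext x; simp

lemma Co_injective (k : Type*) [CommRing k] :
    Function.Injective (Co k : (Finset (Mon r d) → MvPolynomial (Fin (r + 1)) k) →ₗ[k] _) := by
  intro c c' h
  ext1 F
  ext b
  exact congrFun h (F, b)

lemma Co_E (k : Type*) [CommRing k] (F : Finset (Mon r d)) (b : Fin (r + 1) →₀ ℕ) :
    Co k (E k F b) = Pi.single (F, b) 1 := by
  classical
  ext ⟨G, b'⟩
  simp only [Co, E, LinearMap.coe_mk, AddHom.coe_mk]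
  by_cases hG : G = F
  · subst hG
    rw [Pi.single_eq_same, coeff_monomial]
    by_cases hb : b = b'
    · subst hb
      simp
    · rw [if_neg hb, Pi.single_eq_of_ne]
      intro h
      exact hb (Prod.ext_iff.1 h).2.symm
  · rw [Pi.single_eq_of_ne hG, coeff_zero, Pi.single_eq_of_ne]
    intro h
    exact hG (Prod.ext_iff.1 h).1

/-- integer coordinates of `D (E F b)` -/
noncomputable def uv (s : Finset (Mon r d) × (Fin (r + 1) →₀ ℕ)) :
    Finset (Mon r d) × (Fin (r + 1) →₀ ℕ) → ℤ :=
  ∑ f ∈ s.1, sg s.1 f • Pi.single (s.1.erase f, s.2 + ex f) 1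

lemma koszulD_E (k : Type*) [CommRing k] (F : Finset (Mon r d)) (b : Fin (r + 1) →₀ ℕ) :
    koszulD k r d (E k F b) = ∑ f ∈ F, (sg F f : ℤ) • E k (F.erase f) (b + ex f) := by
  classical
  ext1 G
  rw [koszulD_apply, Finset.sum_apply]
  simp only [E, Pi.smul_apply]
  -- both sides are sums over `f` with `f ∈ F`, `G = F.erase f`
  have h1 : ∀ f ∈ Finset.univ.filter (fun f => f ∉ G),
      ((sg G f : ℤ) : MvPolynomial (Fin (r + 1)) k) *
        (mono k f * (Pi.single F (monomial b 1) : Finset (Mon r d) → MvPolynomial (Fin (r + 1)) k)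
          (insert f G)) =
      if insert f G = F then (sg F f : ℤ) • (monomial (b + ex f) (1 : k)) else 0 := by
    intro f hf
    have hfG : f ∉ G := by simpa using hf
    by_cases h : insert f G = F
    · rw [if_pos h, h, Pi.single_eq_same, mono_eq, monomial_mul, ← h]
      have : sg (insert f G) f = sg G f := by
        rw [sg_insert_of_not_lt (lt_irrefl _)]
      rw [this, zsmul_eq_mul, add_comm (ex f) b]
      simp
    · rw [if_neg h, Pi.single_eq_of_ne h]
      simp
  rw [Finset.sum_congr rfl h1, ← Finset.sum_filter]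
  have h2 : ∀ f ∈ F, (sg F f : ℤ) • (Pi.single (F.erase f) (monomial (b + ex f) 1) :
      Finset (Mon r d) → MvPolynomial (Fin (r + 1)) k) G =
      if F.erase f = G then (sg F f : ℤ) • (monomial (b + ex f) (1 : k)) else 0 := by
    intro f _
    by_cases h : F.erase f = G
    · rw [if_pos h, h, Pi.single_eq_same]
    · rw [if_neg h, Pi.single_eq_of_ne (fun h' => h h'.symm), smul_zero]
  rw [Finset.sum_congr rfl h2, ← Finset.sum_filter]
  refine Finset.sum_congr ?_ fun _ _ => rfl
  ext f
  simp only [Finset.mem_filter, Finset.mem_univ, true_and]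
  constructor
  · rintro ⟨hfG, h⟩
    subst h
    exact ⟨Finset.mem_insert_self _ _, Finset.erase_insert hfG⟩
  · rintro ⟨hfF, h⟩
    subst h
    exact ⟨Finset.notMem_erase _ _, Finset.insert_erase hfF⟩

lemma Co_koszulD_E (k : Type*) [CommRing k] (s : Finset (Mon r d) × (Fin (r + 1) →₀ ℕ)) :
    Co k (koszulD k r d (E k s.1 s.2)) = castV k (uv s) := by
  classical
  rw [koszulD_E, map_sum]
  unfold uv
  rw [map_sum]
  refine Finset.sum_congr rfl fun f _ => ?_
  rw [map_zsmul, castV_zsmul, Co_E]
  ext x
  simp only [Pi.smul_apply, castV_apply, zsmul_eq_mul, smul_eq_mul]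
  congr 1
  by_cases hx : x = (s.1.erase f, s.2 + ex f)
  · rw [hx]; simp
  · simp [Pi.single_eq_of_ne hx]

lemma E_mem_chains (k : Type*) [CommRing k] {i j : ℕ} (s : Idx r d i j) :
    E k s.1.1 s.1.2 ∈ chains k r d i j := by
  classical
  intro F
  constructor
  · rintro _
    by_cases h : F = s.1.1
    · rw [h, E, Pi.single_eq_same]
      exact isHomogeneous_monomial _ s.2.2
    · rw [E, Pi.single_eq_of_ne h]
      exact isHomogeneous_zero _ _ _
  · intro h
    by_cases h' : F = s.1.1
    · exact absurd (h' ▸ s.2.1) h
    · rw [E, Pi.single_eq_of_ne h']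

lemma chains_eq_span (k : Type*) [CommRing k] (i j : ℕ) :
    chains k r d i j = Submodule.span k (Set.range fun s : Idx r d i j => E k s.1.1 s.1.2) := by
  classical
  refine le_antisymm ?_ ?_
  · intro c hc
    have h1 : c = ∑ F, ∑ b ∈ (c F).support, coeff b (c F) • E k F b := by
      ext1 G
      rw [Finset.sum_apply, Finset.sum_eq_single G]
      · rw [Finset.sum_apply]
        simp only [Pi.smul_apply, E, Pi.single_eq_same]
        conv_lhs => rw [(c G).as_sum]
        refine Finset.sum_congr rfl fun b _ => ?_
        rw [smul_monomial, smul_eq_mul, mul_one]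
      · intro F _ hFG
        rw [Finset.sum_apply]
        refine Finset.sum_eq_zero fun b _ => ?_
        rw [Pi.smul_apply, E, Pi.single_eq_of_ne hFG.symm, smul_zero]
      · intro h; exact absurd (Finset.mem_univ _) h
    rw [h1]
    refine Submodule.sum_mem _ fun F _ => Submodule.sum_mem _ fun b hb => ?_
    refine Submodule.smul_mem _ _ ?_
    by_cases hF : F.card = i ∧ i ≤ j
    · have h2 := (hc F).1 hF
      have h3 : b.degree = d * (j - i) := by
        have := h2 (mem_support_iff.1 hb)
        rw [Finsupp.degree_eq_weight_one]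
        exact this
      exact Submodule.subset_span ⟨⟨(F, b), hF, h3⟩, rfl⟩
    · rw [(hc F).2 hF] at hb
      simp at hb
  · rw [Submodule.span_le]
    rintro _ ⟨s, rfl⟩
    exact E_mem_chains k s

lemma finrank_chains (k : Type*) [Field k] (i j : ℕ) :
    Module.finrank k (chains k r d i j) = Nat.card (Idx r d i j) := by
  classical
  have _ := Fintype.ofFinite (Idx r d i j)
  have h : LinearIndependent k (fun s : Idx r d i j => E k s.1.1 s.1.2) := by
    refine LinearIndependent.of_comp (Co k) ?_
    have h1 : (Co k ∘ fun s : Idx r d i j => E k s.1.1 s.1.2) =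
        fun s : Idx r d i j => (Pi.single s.1 1 : _ → k) := by
      funext s
      exact Co_E k _ _
    rw [h1]
    rw [linearIndependent_iff']
    intro t g hg s hs
    have h2 := congrFun hg s.1
    rw [Finset.sum_apply, Finset.sum_eq_single s] at h2
    · simpa using h2
    · intro s' _ hne
      rw [Pi.smul_apply, Pi.single_eq_of_ne, smul_zero]
      intro h; exact hne (Subtype.ext h.symm)
    · intro h; exact absurd hs h
  rw [chains_eq_span, finrank_span_eq_card h, Nat.card_eq_fintype_card]

instance (k : Type*) [Field k] (i j : ℕ) : Module.Finite k (chains k r d i j) := by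
  rw [chains_eq_span]
  exact Module.Finite.span_of_finite k (Set.finite_range _)

lemma finrank_map_chains (k : Type*) [Field k] (i j : ℕ) :
    Module.finrank k ((chains k r d i j).map (koszulD k r d)) =
      rk k (fun s : Idx r d i j => uv s.1) := by
  have h1 : (chains k r d i j).map (koszulD k r d) = Submodule.span k
      (Set.range fun s : Idx r d i j => koszulD k r d (E k s.1.1 s.1.2)) := by
    rw [chains_eq_span, Submodule.map_span]
    congr 1
    rw [← Set.range_comp]
    rfl
  rw [h1, (Submodule.equivMapOfInjective (Co k) (Co_injective k) _).finrank_eq,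
    Submodule.map_span, ← Set.range_comp]
  unfold rk
  have h2 : (⇑(Co k) ∘ fun s : Idx r d i j => koszulD k r d (E k s.1.1 s.1.2)) =
      fun s : Idx r d i j => castV k (uv s.1) := by
    funext s
    exact Co_koszulD_E k s.1
  rw [h2]

theorem betti_add (k : Type*) [Field k] (r d i j : ℕ) :
    betti k r d i j + rk k (fun s : Idx r d i j => uv s.1) +
      rk k (fun s : Idx r d (i + 1) j => uv s.1) = Nat.card (Idx r d i j) := by
  have h1 : Module.finrank k (cycles k r d i j) +
      Module.finrank k ((chains k r d i j).map (koszulD k r d)) =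
      Module.finrank k (chains k r d i j) := by
    have h2 := LinearMap.finrank_range_add_finrank_ker
      ((koszulD k r d).domRestrict (chains k r d i j))
    have h3 : Module.finrank k (LinearMap.ker ((koszulD k r d).domRestrict (chains k r d i j))) =
        Module.finrank k (cycles k r d i j) := by
      have h4 : (LinearMap.ker ((koszulD k r d).domRestrict (chains k r d i j))).map
          (chains k r d i j).subtype = cycles k r d i j := by
        ext c
        simp only [Submodule.mem_map, LinearMap.mem_ker, LinearMap.domRestrict_apply,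
          Submodule.subtype_apply, Subtype.exists, exists_and_right, exists_eq_right, cycles,
          Submodule.mem_inf]
        constructor
        · rintro ⟨h, h'⟩; exact ⟨h, h'⟩
        · rintro ⟨h, h'⟩; exact ⟨h, h'⟩
      rw [← h4]
      exact (Submodule.equivMapOfInjective _ (Submodule.injective_subtype _) _).finrank_eq
    have h5 : LinearMap.range ((koszulD k r d).domRestrict (chains k r d i j)) =
        (chains k r d i j).map (koszulD k r d) := LinearMap.range_domRestrict _ _
    rw [h3, h5] at h2
    omega
  have h6 : betti k r d i j + Module.finrank k (boundaries k r d i j) =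
      Module.finrank k (cycles k r d i j) := by
    have hfin : Module.Finite k (cycles k r d i j) :=
      Submodule.finiteDimensional_of_le (inf_le_left : cycles k r d i j ≤ chains k r d i j)
    have h7 := Submodule.finrank_quotient_add_finrank
      ((boundaries k r d i j).submoduleOf (cycles k r d i j))
    have h8 : Module.finrank k ((boundaries k r d i j).submoduleOf (cycles k r d i j)) =
        Module.finrank k (boundaries k r d i j) :=
      (Submodule.submoduleOfEquivOfLe (boundaries_le_cycles k i j)).finrank_eq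
    rw [h8] at h7
    exact h7
  have h9 : Module.finrank k (boundaries k r d i j) =
      rk k (fun s : Idx r d (i + 1) j => uv s.1) := finrank_map_chains k (i + 1) j
  rw [finrank_map_chains, finrank_chains] at h1
  omega

section Compare

variable (k K : Type*) [Field k] [Field K] [CharZero K] (p : ℕ) [CharP k p] [hp : Fact p.Prime]

include p hp in
theorem betti_lt_of_rk_lt (i j : ℕ)
    (h : rk k (fun s : Idx r d (i + 1) j => uv s.1) < rk K (fun s : Idx r d (i + 1) j => uv s.1)) :
    betti K r d i j < betti k r d i j ∧ betti K r d (i + 1) j < betti k r d (i + 1) j := by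
  have h1 := betti_add k r d i j
  have h2 := betti_add K r d i j
  have h3 := betti_add k r d (i + 1) j
  have h4 := betti_add K r d (i + 1) j
  have h5 := rk_le (k := k) (K := K) p (fun s : Idx r d i j => uv s.1)
  have h6 := rk_le (k := k) (K := K) p (fun s : Idx r d (i + 1 + 1) j => uv s.1)
  omega

end Compare

end Pool.Agent.Lib.MP_b64830
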