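import Pool.Agent.Lib.MP_b64830.DcMain

/-!
# The certificate for the 4-uple embedding of projective 3-space

The weight is `(22, 20, 14, 4)` and the internal degree is `15`. The 35 monomials of degree 4 in 4
variables are enumerated in lexicographic order, and a function on the sets of such monomials is
stored as a binary trie of depth 35. The abbreviations `Z`, `U`, `L`, `R`, `B` build the tries.
-/

namespace Pool.Agent.Lib.MP_b64830

/-- The exponents of the 35 monomials of degree 4. -/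
def ms34 : List (List ℕ) := [
   [0, 0, 0, 4], [0, 0, 1, 3], [0, 0, 2, 2], [0, 0, 3, 1], [0, 0, 4, 0], [0, 1, 0, 3],
   [0, 1, 1, 2], [0, 1, 2, 1], [0, 1, 3, 0], [0, 2, 0, 2], [0, 2, 1, 1], [0, 2, 2, 0],
   [0, 3, 0, 1], [0, 3, 1, 0], [0, 4, 0, 0], [1, 0, 0, 3], [1, 0, 1, 2], [1, 0, 2, 1],
   [1, 0, 3, 0], [1, 1, 0, 2], [1, 1, 1, 1], [1, 1, 2, 0], [1, 2, 0, 1], [1, 2, 1, 0],
   [1, 3, 0, 0], [2, 0, 0, 2], [2, 0, 1, 1], [2, 0, 2, 0], [2, 1, 0, 1], [2, 1, 1, 0],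
   [2, 2, 0, 0], [3, 0, 0, 1], [3, 0, 1, 0], [3, 1, 0, 0], [4, 0, 0, 0]]

/-- The weight. -/
def al34 : List ℕ := [22, 20, 14, 4]

namespace Tr

/-- Empty trie. -/
abbrev Z : Tr := .nil
/-- Value one. -/
abbrev U : Tr := .leaf 1
/-- Only a left branch. -/
abbrev L (l : Tr) : Tr := .node l .nil
/-- Only a right branch. -/
abbrev R (r : Tr) : Tr := .node .nil r
/-- Two branches. -/
abbrev B (l r : Tr) : Tr := .node l r

set_option maxRecDepth 100000 in
/-- The indicator function of a set of 834 sets of 14 monomials, a cycle modulo 2. -/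
def W34 : Tr :=
  (L (L (L (L (B (L (L (L (B (L (B (B (R (R (R (L (L (L (R (L (L (R (L (R (R (L (B (R (R (R (R (R
  (R (L (R U)))))))) (B (R (R (R (R (R (L (R U))))))) (B (R (R (R (R (L (R U)))))) (B (R (R (R (L
  (R U))))) (B (R (R (L (R U)))) (B (R (L (R U))) (B (L (R U)) (L (L U))))))))))))))))))))))) (B
  (R (R (L (L (L (B (L (L (R (L (R (R (L (R (R (R (R (R (R (R (R (L U)))))))))))))))) (L (L (B (L
  (R (R (L (R (R (R (R (R (R (R (R (L U))))))))))))) (L (R (R (L (B (R (R (R (R (B (R (R (R U)))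
  (R (L (R U)))))))) (B (R (R (R (B (R (R (R U))) (R (L (R U))))))) (B (R (R (B (R (R (R U))) (R
  (L (R U)))))) (B (R (B (R (R (R U))) (R (L (R U))))) (B (B (R (R (R U))) (R (L (R U)))) (B (B (R
  (R U)) (R (L U))) (B (L (R U)) (L (L U)))))))))))))))))))))) (B (R (L (L (L (R (L (L (B (L (R (R
  (L (R (R (R (R (R (R (R (R (L U))))))))))))) (L (R (R (L (B (R (R (R (R (B (R (R (R U))) (R (L
  (R U)))))))) (B (R (R (R (B (R (R (R U))) (R (L (R U))))))) (B (R (R (B (R (R (R U))) (R (L (R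
  U)))))) (B (R (B (R (R (R U))) (R (L (R U))))) (B (B (R (R (R U))) (R (L (R U)))) (B (B (R (R
  U)) (R (L U))) (B (L (R U)) (L (L U))))))))))))))))))))) (B (L (L (L (B (L (L (R (L (R (R (L (R
  (R (R (R (R (R (R (R (L U)))))))))))))))) (L (L (B (L (R (R (L (R (R (R (R (R (R (R (R (L
  U))))))))))))) (L (R (R (L (B (R (R (R (R (B (R (R (R U))) (R (L (R U)))))))) (B (R (R (R (B (R
  (R (R U))) (R (L (R U))))))) (B (R (R (B (R (R (R U))) (R (L (R U)))))) (B (R (B (R (R (R U)))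
  (R (L (R U))))) (B (B (R (R (R U))) (R (L (R U)))) (B (B (R (R U)) (R (L U))) (B (L (R U)) (L (L
  U)))))))))))))))))))) (L (L (L (B (L (L (R (L (B (R (L (R (R (R (R (R (R (R (L (R U)))))))))))
  (L (L (R (R (R (R (R (R (B (R (R U)) (R (L U)))))))))))))))) (L (L (B (L (B (R (L (R (R (R (R (R
  (R (R (L (R U))))))))))) (B (L (R (R (R (R (R (R (B (R (R U)) (R (L U)))))))))) (L (B (R (R (R
  (L (R (R (R (R U)))))))) (B (R (R (L (R (R (R (R U))))))) (B (R (L (R (R (R (R U)))))) (B (L (R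
  (R (R (R U))))) (L (B (R (R (R U))) (B (R (R U)) (B (R U) (L U))))))))))))) (L (B (B (L (R (R (R
  (R (R (L (R (R (R U)))))))))) (L (B (R (B (R (R (R (R (R (R U)))))) (R (R (R (R (L (R U))))))))
  (B (B (R (R (R (R (R (R U)))))) (R (R (R (R (L (R U))))))) (B (B (R (R (R (R (R U))))) (B (R (R
  (R (R U)))) (B (R (R (R U))) (B (R (R U)) (R (L U)))))) (B (R (R (R (L (R U))))) (B (R (R (L (R
  U)))) (B (R (L (R U))) (B (L (R U)) (L (L U))))))))))) (L (L (B (R (R (R (R (B (R (R (R U))) (R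
  (L (R U)))))))) (B (R (R (R (B (R (R (R U))) (R (L (R U))))))) (B (R (R (B (R (R (R U))) (R (L
  (R U)))))) (B (R (B (R (R (R U))) (R (L (R U))))) (B (B (R (R (R U))) (R (L (R U)))) (B (B (R (R
  U)) (R (L U))) (B (L (R U)) (L (L U)))))))))))))))))))))))) (B (B (R (R (L (L (L (R (L (L (R (L
  (R (R (L (B (R (R (R (R (L (R (R (R U)))))))) (B (R (R (R (L (R (R (R U))))))) (B (R (R (L (R (R
  (R U)))))) (B (R (L (R (R (R U))))) (B (L (R (R (R U)))) (L (B (R (R U)) (B (R U) (L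
  U)))))))))))))))))))))) (B (R (L (L (L (R (L (L (R (L (R (R (L (B (R (R (R (R (L (R (R (R
  U)))))))) (B (R (R (R (L (R (R (R U))))))) (B (R (R (L (R (R (R U)))))) (B (R (L (R (R (R U)))))
  (B (L (R (R (R U)))) (L (B (R (R U)) (B (R U) (L U))))))))))))))))))))) (B (L (L (L (R (L (L (R
  (L (R (R (L (B (R (R (R (R (L (R (R (R U)))))))) (B (R (R (R (L (R (R (R U))))))) (B (R (R (L (R
  (R (R U)))))) (B (R (L (R (R (R U))))) (B (L (R (R (R U)))) (L (B (R (R U)) (B (R U) (L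
  U)))))))))))))))))))) (L (L (L (B (L (L (R (L (R (L (L (R (R (R (R (R (L (R (R (R
  U)))))))))))))))) (L (L (B (L (R (L (L (R (R (R (R (R (L (R (R (R U))))))))))))) (L (B (B (L (R
  (R (R (R (R (L (R (R (R U)))))))))) (L (B (R (L (R (R (R (R (R (R U)))))))) (B (L (R (R (R (R (R
  (R U))))))) (L (B (R (R (R (R (R U))))) (B (R (R (R (R U)))) (B (R (R (R U))) (B (R (R U)) (B (R
  U) (L U))))))))))) (L (L (B (R (R (R (R (L (R (R (R U)))))))) (B (R (R (R (L (R (R (R U)))))))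
  (B (R (R (L (R (R (R U)))))) (B (R (L (R (R (R U))))) (B (L (R (R (R U)))) (L (B (R (R U)) (B (R
  U) (L U))))))))))))))))))))))) (B (R (R (L (L (L (B (L (L (R (L (L (R (L (R (R (R (R (R (L (R (R
  (R U)))))))))))))))) (L (L (B (L (B (R (L (R (R (R (R (R (L (R (R (R U))))))))))) (R (L (B (R (L
  (R (R (R (R (R (R U)))))))) (B (L (R (R (R (R (R (R U))))))) (L (B (R (R (R (R (R U))))) (B (R
  (R (R (R U)))) (B (R (R (R U))) (B (R (R U)) (B (R U) (L U))))))))))))) (L (L (B (L (R (R (R (R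
  (R (L (R (R (R U)))))))))) (L (B (R (B (R (R (R (R (R (R U)))))) (R (R (L (R (R (R U)))))))) (B
  (B (R (R (R (R (R (R U)))))) (R (R (L (R (R (R U))))))) (B (B (R (R (R (R (R U))))) (B (R (R (R
  (R U)))) (R (B (R (R U)) (B (R U) (L U)))))) (B (R (L (R (R (R U))))) (B (L (R (R (R U)))) (L (B
  (R (R U)) (B (R U) (L U)))))))))))))))))))))) (B (R (L (L (L (B (L (L (R (L (L (R (L (R (R (R (R
  (R (L (R (R (R U)))))))))))))))) (L (L (B (L (B (R (L (R (R (R (R (R (L (R (R (R U))))))))))) (R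
  (L (B (R (L (R (R (R (R (R (R U)))))))) (B (L (R (R (R (R (R (R U))))))) (L (B (R (R (R (R (R
  U))))) (B (R (R (R (R U)))) (B (R (R (R U))) (B (R (R U)) (B (R U) (L U))))))))))))) (L (L (B (L
  (R (R (R (R (R (L (R (R (R U)))))))))) (L (B (R (B (R (R (R (R (R (R U)))))) (R (R (L (R (R (R
  U)))))))) (B (B (R (R (R (R (R (R U)))))) (R (R (L (R (R (R U))))))) (B (B (R (R (R (R (R U)))))
  (B (R (R (R (R U)))) (R (B (R (R U)) (B (R U) (L U)))))) (B (R (L (R (R (R U))))) (B (L (R (R (R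
  U)))) (L (B (R (R U)) (B (R U) (L U))))))))))))))))))))) (B (L (L (L (B (L (L (R (L (L (R (L (R
  (R (R (R (R (L (R (R (R U)))))))))))))))) (L (L (B (L (B (R (L (R (R (R (R (R (L (R (R (R
  U))))))))))) (R (L (B (R (L (R (R (R (R (R (R U)))))))) (B (L (R (R (R (R (R (R U))))))) (L (B
  (R (R (R (R (R U))))) (B (R (R (R (R U)))) (B (R (R (R U))) (B (R (R U)) (B (R U) (L
  U))))))))))))) (L (L (B (L (R (R (R (R (R (L (R (R (R U)))))))))) (L (B (R (B (R (R (R (R (R (R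
  U)))))) (R (R (L (R (R (R U)))))))) (B (B (R (R (R (R (R (R U)))))) (R (R (L (R (R (R U)))))))
  (B (B (R (R (R (R (R U))))) (B (R (R (R (R U)))) (R (B (R (R U)) (B (R U) (L U)))))) (B (R (L (R
  (R (R U))))) (B (L (R (R (R U)))) (L (B (R (R U)) (B (R U) (L U)))))))))))))))))))) (L (L (L (B
  (L (L (B (L (R (L (L (R (R (L (R (R (R (R (R (R U))))))))))))) (L (L (L (L (R (R (L (R (R (R (R
  (R (R U)))))))))))))))) (L (L (B (L (R (L (L (B (R (L (R (R (R (R (R (R U)))))))) (B (L (R (R (R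
  (R (R (R U))))))) (L (B (R (R (R (R (R U))))) (B (R (R (R (R U)))) (B (R (R (R U))) (B (R (R U))
  (B (R U) (L U))))))))))))) (L (L (L (L (B (R (L (R (R (R (R (R (R U)))))))) (B (L (R (R (R (R (R
  (R U))))))) (L (B (R (R (R (R (R U))))) (B (R (R (R (R U)))) (B (R (R (R U))) (B (R (R U)) (B (R
  U) (L U)))))))))))))))))))))))))) (L (B (B (B (R (R (L (L (L (R (L (L (L (L (R (R (L (R (R (R (R
  (R (R (R (R (L U)))))))))))))))))))))) (B (R (L (L (L (R (L (L (L (L (R (R (L (R (R (R (R (R (R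
  (R (R (L U))))))))))))))))))))) (B (L (L (L (R (L (L (L (L (R (R (L (R (R (R (R (R (R (R (R (L
  U)))))))))))))))))))) (L (L (L (B (L (L (B (L (R (R (L (R (R (R (R (R (R (R (L (R U)))))))))))))
  (L (R (R (L (B (R (R (R (L (R (R (R (R U)))))))) (B (R (R (L (R (R (R (R U))))))) (B (R (L (R (R
  (R (R U)))))) (B (L (R (R (R (R U))))) (L (B (R (R (R U))) (B (R (R U)) (B (R U) (L
  U)))))))))))))))) (L (L (L (L (B (R (L (R (R (R (R (R (R (R (L (R U))))))))))) (B (L (R (R (R (R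
  (R (B (R (R (R U))) (B (R (R U)) (R (L U)))))))))) (L (B (R (R (R (B (R (R (R (R U)))) (R (R (L
  (R U)))))))) (B (R (R (B (R (R (R (R U)))) (R (R (L (R U))))))) (B (R (B (R (R (R (R U)))) (R (R
  (L (R U)))))) (B (B (R (R (R (R U)))) (R (R (L (R U))))) (B (B (R (R (R U))) (B (R (R U)) (R (L
  U)))) (B (R (L (R U))) (B (L (R U)) (L (L U))))))))))))))))))))))) (B (R (R (L (L (L (B (L (L (B
  (L (R (R (L (R (R (R (R (R (B (R (R (R U))) (R (B (R U) (L U))))))))))))) (L (R (R (L (B (R (B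
  (R (R (R (R (R (R U)))))) (R (L (R (R (R (R U)))))))) (B (B (R (R (R (R (R (R U)))))) (R (L (R
  (R (R (R U))))))) (B (B (R (R (R (R (R U))))) (R (B (R (R (R U))) (B (R (R U)) (B (R U) (L
  U)))))) (B (L (R (R (R (R U))))) (L (B (R (R (R U))) (B (R (R U)) (B (R U) (L U))))))))))))))))
  (L (L (L (L (B (R (L (R (R (R (R (R (B (R (R (R U))) (R (B (R U) (L U))))))))))) (B (L (R (R (R
  (R (R (R (L (R (R U)))))))))) (L (B (R (B (R (R (R (R (R (R U)))))) (R (B (R (R (R (R U)))) (B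
  (R (R (R U))) (R (B (R U) (L U)))))))) (B (B (R (R (R (R (R (R U)))))) (R (B (R (R (R (R U))))
  (B (R (R (R U))) (R (B (R U) (L U))))))) (B (B (R (R (R (R (R U))))) (R (R (L (R (R U)))))) (B
  (B (R (R (R (R U)))) (B (R (R (R U))) (R (B (R U) (L U))))) (B (R (L (R (R U)))) (B (L (R (R
  U))) (L (B (R U) (L U)))))))))))))))))))))) (B (R (L (L (L (B (L (L (B (L (R (R (L (R (R (R (R
  (R (B (R (R (R U))) (R (B (R U) (L U))))))))))))) (L (R (R (L (B (R (B (R (R (R (R (R (R U))))))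
  (R (L (R (R (R (R U)))))))) (B (B (R (R (R (R (R (R U)))))) (R (L (R (R (R (R U))))))) (B (B (R
  (R (R (R (R U))))) (R (B (R (R (R U))) (B (R (R U)) (B (R U) (L U)))))) (B (L (R (R (R (R U)))))
  (L (B (R (R (R U))) (B (R (R U)) (B (R U) (L U)))))))))))))))) (L (L (L (L (B (R (L (R (R (R (R
  (R (B (R (R (R U))) (R (B (R U) (L U))))))))))) (B (L (R (R (R (R (R (R (L (R (R U)))))))))) (L
  (B (R (B (R (R (R (R (R (R U)))))) (R (B (R (R (R (R U)))) (B (R (R (R U))) (R (B (R U) (L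
  U)))))))) (B (B (R (R (R (R (R (R U)))))) (R (B (R (R (R (R U)))) (B (R (R (R U))) (R (B (R U)
  (L U))))))) (B (B (R (R (R (R (R U))))) (R (R (L (R (R U)))))) (B (B (R (R (R (R U)))) (B (R (R
  (R U))) (R (B (R U) (L U))))) (B (R (L (R (R U)))) (B (L (R (R U))) (L (B (R U) (L
  U))))))))))))))))))))) (B (L (L (L (B (L (L (B (L (R (R (L (R (R (R (R (R (B (R (R (R U))) (R (B
  (R U) (L U))))))))))))) (L (R (R (L (B (R (B (R (R (R (R (R (R U)))))) (R (L (R (R (R (R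
  U)))))))) (B (B (R (R (R (R (R (R U)))))) (R (L (R (R (R (R U))))))) (B (B (R (R (R (R (R U)))))
  (R (B (R (R (R U))) (B (R (R U)) (B (R U) (L U)))))) (B (L (R (R (R (R U))))) (L (B (R (R (R
  U))) (B (R (R U)) (B (R U) (L U)))))))))))))))) (L (L (L (L (B (R (L (R (R (R (R (R (B (R (R (R
  U))) (R (B (R U) (L U))))))))))) (B (L (R (R (R (R (R (R (L (R (R U)))))))))) (L (B (R (B (R (R
  (R (R (R (R U)))))) (R (B (R (R (R (R U)))) (B (R (R (R U))) (R (B (R U) (L U)))))))) (B (B (R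
  (R (R (R (R (R U)))))) (R (B (R (R (R (R U)))) (B (R (R (R U))) (R (B (R U) (L U))))))) (B (B (R
  (R (R (R (R U))))) (R (R (L (R (R U)))))) (B (B (R (R (R (R U)))) (B (R (R (R U))) (R (B (R U)
  (L U))))) (B (R (L (R (R U)))) (B (L (R (R U))) (L (B (R U) (L U)))))))))))))))))))) (L (L (L (B
  (L (L (B (L (B (R (L (R (R (L (R (R (R (R (R (R U))))))))))) (L (L (R (R (R (R (R (B (R (R (R
  U))) (B (R (R U)) (B (R U) (L U))))))))))))) (L (B (B (L (R (R (L (R (R (R (R (R (R U))))))))))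
  (L (B (R (R (R (L (R (R (R (R U)))))))) (B (R (R (L (R (R (R (R U))))))) (B (R (L (R (R (R (R
  U)))))) (B (L (R (R (R (R U))))) (L (B (R (R (R U))) (B (R (R U)) (B (R U) (L U))))))))))) (L (L
  (B (R (B (R (R (R (R (R (R U)))))) (R (L (R (R (R (R U)))))))) (B (B (R (R (R (R (R (R U))))))
  (R (L (R (R (R (R U))))))) (B (B (R (R (R (R (R U))))) (R (B (R (R (R U))) (B (R (R U)) (B (R U)
  (L U)))))) (B (L (R (R (R (R U))))) (L (B (R (R (R U))) (B (R (R U)) (B (R U) (L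
  U)))))))))))))))) (L (L (L (L (B (B (L (R (R (R (R (R (B (R (R (R U))) (B (R (R U)) (B (R U) (L
  U)))))))))) (L (B (R (B (R (R (R (R (R (R U)))))) (R (L (R (R (R (R U)))))))) (B (B (R (R (R (R
  (R (R U)))))) (R (L (R (R (R (R U))))))) (B (B (R (R (R (R (R U))))) (R (B (R (R (R U))) (B (R
  (R U)) (B (R U) (L U)))))) (B (L (R (R (R (R U))))) (L (B (R (R (R U))) (B (R (R U)) (B (R U) (L
  U))))))))))) (L (L (B (R (B (R (R (R (R (R (R U)))))) (R (B (R (R (R (R U)))) (B (R (R (R U)))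
  (B (R (R U)) (B (R U) (L U)))))))) (B (B (R (R (R (R (R (R U)))))) (R (B (R (R (R (R U)))) (B (R
  (R (R U))) (B (R (R U)) (B (R U) (L U))))))) (B (L (R (R (R (R (R U)))))) (L (B (R (R (R (R
  U)))) (B (R (R (R U))) (B (R (R U)) (B (R U) (L U)))))))))))))))))))))))) (B (B (R (R (L (L (L
  (B (L (L (B (L (R (R (L (R (R (R (R (R (L (R (R (R U))))))))))))) (L (R (R (L (B (R (L (R (R (R
  (R (R (R U)))))))) (B (L (R (R (R (R (R (R U))))))) (L (B (R (R (R (R (R U))))) (B (R (R (R (R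
  U)))) (B (R (R (R U))) (B (R (R U)) (B (R U) (L U)))))))))))))))) (L (L (L (L (B (R (L (R (R (R
  (R (R (L (R (R (R U))))))))))) (B (L (R (R (R (R (R (L (R (R (R U)))))))))) (L (B (R (B (R (R (R
  (R (R (R U)))))) (R (R (L (R (R (R U)))))))) (B (B (R (R (R (R (R (R U)))))) (R (R (L (R (R (R
  U))))))) (B (B (R (R (R (R (R U))))) (B (R (R (R (R U)))) (R (B (R (R U)) (B (R U) (L U)))))) (B
  (R (L (R (R (R U))))) (B (L (R (R (R U)))) (L (B (R (R U)) (B (R U) (L U))))))))))))))))))))))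
  (B (R (L (L (L (B (L (L (B (L (R (R (L (R (R (R (R (R (L (R (R (R U))))))))))))) (L (R (R (L (B
  (R (L (R (R (R (R (R (R U)))))))) (B (L (R (R (R (R (R (R U))))))) (L (B (R (R (R (R (R U)))))
  (B (R (R (R (R U)))) (B (R (R (R U))) (B (R (R U)) (B (R U) (L U)))))))))))))))) (L (L (L (L (B
  (R (L (R (R (R (R (R (L (R (R (R U))))))))))) (B (L (R (R (R (R (R (L (R (R (R U)))))))))) (L (B
  (R (B (R (R (R (R (R (R U)))))) (R (R (L (R (R (R U)))))))) (B (B (R (R (R (R (R (R U)))))) (R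
  (R (L (R (R (R U))))))) (B (B (R (R (R (R (R U))))) (B (R (R (R (R U)))) (R (B (R (R U)) (B (R
  U) (L U)))))) (B (R (L (R (R (R U))))) (B (L (R (R (R U)))) (L (B (R (R U)) (B (R U) (L
  U))))))))))))))))))))) (B (L (L (L (B (L (L (B (L (R (R (L (R (R (R (R (R (L (R (R (R
  U))))))))))))) (L (R (R (L (B (R (L (R (R (R (R (R (R U)))))))) (B (L (R (R (R (R (R (R U)))))))
  (L (B (R (R (R (R (R U))))) (B (R (R (R (R U)))) (B (R (R (R U))) (B (R (R U)) (B (R U) (L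
  U)))))))))))))))) (L (L (L (L (B (R (L (R (R (R (R (R (L (R (R (R U))))))))))) (B (L (R (R (R (R
  (R (L (R (R (R U)))))))))) (L (B (R (B (R (R (R (R (R (R U)))))) (R (R (L (R (R (R U)))))))) (B
  (B (R (R (R (R (R (R U)))))) (R (R (L (R (R (R U))))))) (B (B (R (R (R (R (R U))))) (B (R (R (R
  (R U)))) (R (B (R (R U)) (B (R U) (L U)))))) (B (R (L (R (R (R U))))) (B (L (R (R (R U)))) (L (B
  (R (R U)) (B (R U) (L U)))))))))))))))))))) (L (L (L (B (L (L (B (L (L (R (L (R (R (L (R (R (R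
  (R (R (R U))))))))))))) (L (B (L (L (R (R (L (R (R (R (R (R (R U))))))))))) (L (L (B (R (L (R (R
  (R (R (R (R U)))))))) (B (L (R (R (R (R (R (R U))))))) (L (B (R (R (R (R (R U))))) (B (R (R (R
  (R U)))) (B (R (R (R U))) (B (R (R U)) (B (R U) (L U)))))))))))))))) (L (L (L (L (B (R (L (B (R
  (L (R (R (R (R (R (R U)))))))) (B (L (R (R (R (R (R (R U))))))) (L (B (R (R (R (R (R U))))) (B
  (R (R (R (R U)))) (B (R (R (R U))) (B (R (R U)) (B (R U) (L U))))))))))) (L (L (B (R (L (R (R (R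
  (R (R (R U)))))))) (B (L (R (R (R (R (R (R U))))))) (L (B (R (R (R (R (R U))))) (B (R (R (R (R
  U)))) (B (R (R (R U))) (B (R (R U)) (B (R U) (L U))))))))))))))))))))))) (B (R (R (L (L (L (L (L
  (L (B (L (L (R (L (R (R (L (R (R (R (R (R (R U))))))))))))) (L (L (B (L (R (R (L (R (R (R (R (R
  (R U)))))))))) (L (B (R (L (R (R (R (R (R (R U)))))))) (B (L (R (R (R (R (R (R U))))))) (L (B (R
  (R (R (R (R U))))) (B (R (R (R (R U)))) (B (R (R (R U))) (B (R (R U)) (B (R U) (L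
  U)))))))))))))))))))))) (B (R (L (L (L (L (L (L (B (L (L (R (L (R (R (L (R (R (R (R (R (R
  U))))))))))))) (L (L (B (L (R (R (L (R (R (R (R (R (R U)))))))))) (L (B (R (L (R (R (R (R (R (R
  U)))))))) (B (L (R (R (R (R (R (R U))))))) (L (B (R (R (R (R (R U))))) (B (R (R (R (R U)))) (B
  (R (R (R U))) (B (R (R U)) (B (R U) (L U))))))))))))))))))))) (L (L (L (L (L (L (L (B (L (L (R
  (L (R (R (L (R (R (R (R (R (R U))))))))))))) (L (L (B (L (R (R (L (R (R (R (R (R (R U))))))))))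
  (L (B (R (L (R (R (R (R (R (R U)))))))) (B (L (R (R (R (R (R (R U))))))) (L (B (R (R (R (R (R
  U))))) (B (R (R (R (R U)))) (B (R (R (R U))) (B (R (R U)) (B (R U) (L
  U)))))))))))))))))))))))))))))) (L (L (L (L (L (B (B (B (R (R (L (L (L (L (L (L (R (L (R (R (L
  (R (R (R (R (R (R (R (R (L U)))))))))))))))))))))) (R (B (L (L (L (L (L (L (R (L (R (R (L (R (R
  (R (R (R (R (R (R (L U)))))))))))))))))))) (L (L (L (L (L (L (B (L (R (R (L (R (R (R (R (R (R (R
  (L (R U))))))))))))) (L (B (R (L (R (R (R (R (R (R (R (L (R U))))))))))) (B (L (R (R (R (R (R (B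
  (R (R (R U))) (B (R (R U)) (R (L U)))))))))) (L (B (R (R (R (B (R (R (R (R U)))) (R (R (L (R
  U)))))))) (B (R (R (B (R (R (R (R U)))) (R (R (L (R U))))))) (B (R (B (R (R (R (R U)))) (R (R (L
  (R U)))))) (B (B (R (R (R (R U)))) (R (R (L (R U))))) (B (B (R (R (R U))) (B (R (R U)) (R (L
  U)))) (B (R (L (R U))) (B (L (R U)) (L (L U))))))))))))))))))))))) (B (B (R (L (L (L (L (L (L (R
  (L (R (R (L (R (R (R (R (R (R (R (R (L U))))))))))))))))))))) (R (L (L (L (L (L (L (B (L (R (R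
  (L (R (R (R (R (R (B (R (R (R U))) (R (B (R U) (L U))))))))))))) (L (B (R (L (R (R (R (R (R (B
  (R (R (R U))) (R (B (R U) (L U))))))))))) (B (L (R (R (R (R (R (R (L (R (R U)))))))))) (L (B (R
  (B (R (R (R (R (R (R U)))))) (R (B (R (R (R (R U)))) (B (R (R (R U))) (R (B (R U) (L U))))))))
  (B (B (R (R (R (R (R (R U)))))) (R (B (R (R (R (R U)))) (B (R (R (R U))) (R (B (R U) (L U)))))))
  (B (B (R (R (R (R (R U))))) (R (R (L (R (R U)))))) (B (B (R (R (R (R U)))) (B (R (R (R U))) (R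
  (B (R U) (L U))))) (B (R (L (R (R U)))) (B (L (R (R U))) (L (B (R U) (L U))))))))))))))))))))))
  (B (B (L (L (L (L (L (L (R (L (R (R (L (R (R (R (R (R (R (R (R (L U)))))))))))))))))))) (L (L (L
  (L (L (L (B (L (R (R (L (R (R (R (R (R (B (R (R (R U))) (R (L (R U))))))))))))) (L (B (R (L (R
  (R (R (R (R (B (R (R (R U))) (R (L (R U))))))))))) (B (L (R (R (R (R (R (R (B (R (R U)) (R (L
  U)))))))))) (L (B (R (B (R (R (R (R (R (R U)))))) (R (B (R (R (R (R U)))) (B (R (R (R U))) (R (L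
  (R U)))))))) (B (B (R (R (R (R (R (R U)))))) (R (B (R (R (R (R U)))) (B (R (R (R U))) (R (L (R
  U))))))) (B (B (R (R (R (R (R U))))) (R (R (B (R (R U)) (R (L U)))))) (B (B (R (R (R (R U)))) (B
  (R (R (R U))) (R (L (R U))))) (B (R (B (R (R U)) (R (L U)))) (B (B (R (R U)) (R (L U))) (B (L (R
  U)) (L (L U))))))))))))))))))))) (B (L (L (L (L (L (L (B (L (R (R (L (R (R (R (R (R (B (R (R (R
  U))) (R (B (R U) (L U))))))))))))) (L (B (R (L (R (R (R (R (R (B (R (R (R U))) (R (B (R U) (L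
  U))))))))))) (B (L (R (R (R (R (R (R (L (R (R U)))))))))) (L (B (R (B (R (R (R (R (R (R U))))))
  (R (B (R (R (R (R U)))) (B (R (R (R U))) (R (B (R U) (L U)))))))) (B (B (R (R (R (R (R (R
  U)))))) (R (B (R (R (R (R U)))) (B (R (R (R U))) (R (B (R U) (L U))))))) (B (B (R (R (R (R (R
  U))))) (R (R (L (R (R U)))))) (B (B (R (R (R (R U)))) (B (R (R (R U))) (R (B (R U) (L U))))) (B
  (R (L (R (R U)))) (B (L (R (R U))) (L (B (R U) (L U)))))))))))))))))))) (L (L (L (L (L (L (B (L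
  (B (R (L (R (R (L (R (R (R (R (R (R U))))))))))) (B (L (R (R (B (R (R (R (R (R (R U)))))) (R (R
  (B (R (R (R U))) (B (R (R U)) (B (R U) (L U)))))))))) (L (B (R (R (R (L (R (R (R (R U)))))))) (B
  (R (R (L (R (R (R (R U))))))) (B (R (L (R (R (R (R U)))))) (B (L (R (R (R (R U))))) (L (B (R (R
  (R U))) (B (R (R U)) (B (R U) (L U))))))))))))) (L (B (B (L (R (R (R (R (R (B (R (R (R U))) (B
  (R (R U)) (B (R U) (L U)))))))))) (L (B (R (B (R (R (R (R (R (R U)))))) (R (L (R (R (R (R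
  U)))))))) (B (B (R (R (R (R (R (R U)))))) (R (L (R (R (R (R U))))))) (B (B (R (R (R (R (R U)))))
  (R (B (R (R (R U))) (B (R (R U)) (B (R U) (L U)))))) (B (L (R (R (R (R U))))) (L (B (R (R (R
  U))) (B (R (R U)) (B (R U) (L U))))))))))) (L (L (B (R (B (R (R (R (R (R (R U)))))) (R (B (R (R
  (R (R U)))) (B (R (R (R U))) (B (R (R U)) (B (R U) (L U)))))))) (B (B (R (R (R (R (R (R U))))))
  (R (B (R (R (R (R U)))) (B (R (R (R U))) (B (R (R U)) (B (R U) (L U))))))) (B (L (R (R (R (R (R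
  U)))))) (L (B (R (R (R (R U)))) (B (R (R (R U))) (B (R (R U)) (B (R U) (L
  U)))))))))))))))))))))))) (B (B (R (R (L (L (L (L (L (L (B (L (R (R (L (R (R (R (R (R (L (R (R
  (R U))))))))))))) (L (B (R (L (R (R (R (R (R (L (R (R (R U))))))))))) (B (L (R (R (R (R (R (L (R
  (R (R U)))))))))) (L (B (R (B (R (R (R (R (R (R U)))))) (R (R (L (R (R (R U)))))))) (B (B (R (R
  (R (R (R (R U)))))) (R (R (L (R (R (R U))))))) (B (B (R (R (R (R (R U))))) (B (R (R (R (R U))))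
  (R (B (R (R U)) (B (R U) (L U)))))) (B (R (L (R (R (R U))))) (B (L (R (R (R U)))) (L (B (R (R
  U)) (B (R U) (L U)))))))))))))))))))))) (B (R (L (L (L (L (L (L (B (L (R (R (L (R (R (R (R (R (L
  (R (R (R U))))))))))))) (L (B (R (L (R (R (R (R (R (L (R (R (R U))))))))))) (B (L (R (R (R (R (R
  (L (R (R (R U)))))))))) (L (B (R (B (R (R (R (R (R (R U)))))) (R (R (L (R (R (R U)))))))) (B (B
  (R (R (R (R (R (R U)))))) (R (R (L (R (R (R U))))))) (B (B (R (R (R (R (R U))))) (B (R (R (R (R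
  U)))) (R (B (R (R U)) (B (R U) (L U)))))) (B (R (L (R (R (R U))))) (B (L (R (R (R U)))) (L (B (R
  (R U)) (B (R U) (L U))))))))))))))))))))) (B (L (L (L (L (L (L (B (L (R (R (L (R (R (R (R (R (L
  (R (R (R U))))))))))))) (L (B (R (L (R (R (R (R (R (L (R (R (R U))))))))))) (B (L (R (R (R (R (R
  (L (R (R (R U)))))))))) (L (B (R (B (R (R (R (R (R (R U)))))) (R (R (L (R (R (R U)))))))) (B (B
  (R (R (R (R (R (R U)))))) (R (R (L (R (R (R U))))))) (B (B (R (R (R (R (R U))))) (B (R (R (R (R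
  U)))) (R (B (R (R U)) (B (R U) (L U)))))) (B (R (L (R (R (R U))))) (B (L (R (R (R U)))) (L (B (R
  (R U)) (B (R U) (L U)))))))))))))))))))) (L (L (L (L (L (L (B (L (B (R (L (R (R (L (R (R (R (R
  (R (R U))))))))))) (L (L (R (R (L (R (R (R (R (R (R U))))))))))))) (L (B (R (L (B (R (L (R (R (R
  (R (R (R U)))))))) (B (L (R (R (R (R (R (R U))))))) (L (B (R (R (R (R (R U))))) (B (R (R (R (R
  U)))) (B (R (R (R U))) (B (R (R U)) (B (R U) (L U))))))))))) (L (L (B (R (L (R (R (R (R (R (R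
  U)))))))) (B (L (R (R (R (R (R (R U))))))) (L (B (R (R (R (R (R U))))) (B (R (R (R (R U)))) (B
  (R (R (R U))) (B (R (R U)) (B (R U) (L U))))))))))))))))))))))) (B (R (R (L (L (L (L (L (L (L (L
  (B (R (L (R (R (L (R (R (R (R (R (R U))))))))))) (B (L (R (R (L (R (R (R (R (R (R U)))))))))) (L
  (B (R (L (R (R (R (R (R (R U)))))))) (B (L (R (R (R (R (R (R U))))))) (L (B (R (R (R (R (R
  U))))) (B (R (R (R (R U)))) (B (R (R (R U))) (B (R (R U)) (B (R U) (L U)))))))))))))))))))))) (B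
  (R (L (L (L (L (L (L (L (L (B (R (L (R (R (L (R (R (R (R (R (R U))))))))))) (B (L (R (R (L (R (R
  (R (R (R (R U)))))))))) (L (B (R (L (R (R (R (R (R (R U)))))))) (B (L (R (R (R (R (R (R U)))))))
  (L (B (R (R (R (R (R U))))) (B (R (R (R (R U)))) (B (R (R (R U))) (B (R (R U)) (B (R U) (L
  U))))))))))))))))))))) (L (L (L (L (L (L (L (L (L (B (R (L (R (R (L (R (R (R (R (R (R
  U))))))))))) (B (L (R (R (L (R (R (R (R (R (R U)))))))))) (L (B (R (L (R (R (R (R (R (R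
  U)))))))) (B (L (R (R (R (R (R (R U))))))) (L (B (R (R (R (R (R U))))) (B (R (R (R (R U)))) (B
  (R (R (R U))) (B (R (R U)) (B (R U) (L U)))))))))))))))))))))))))))))))))))

set_option maxRecDepth 100000 in
/-- The indicator function of a set of 120 sets of 13 monomials, a cocycle modulo 2. -/
def P34 : Tr :=
  (L (L (L (B (L (L (B (B (B (B (B (R (B (R (L (L (B (B (B (B (B (R (R (R (R (L (R (R (B (R (R (R
  (R (R (L U)))))) (R (R (R (R (L (L U)))))))))))))) (R (R (R (R (L (L (R (B (R (R (R (R (R (L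
  U)))))) (R (L (R (R (R (L U))))))))))))))) (R (R (L (R (R (L (L (R (L (R (R (R (R (R (L
  U)))))))))))))))) (B (B (R (R (R (R (B (B (B (R (R (R (R (R (R (L U))))))) (L (R (R (R (R (R (L
  U)))))))) (L (R (R (R (R (R (L (L U))))))))) (L (R (L (R (R (R (L (R (L U)))))))))))))) (R (R (R
  (R (L (L (L (R (R (L (R (R (R (L U))))))))))))))) (B (L (R (R (R (L (L (R (L (R (R (R (R (R (L
  U)))))))))))))) (R (L (R (R (L (L (L (L (R (R (R (R (R (L U))))))))))))))))) (B (L (L (R (R (R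
  (R (L (L (R (B (R (R (R (R (R (L U)))))) (L (R (R (R (R (L U)))))))))))))))) (L (L (R (R (R (R
  (L (L (L (R (L (R (R (R (R (L U)))))))))))))))))) (L (R (L (L (R (R (R (R (L (L (L (L (R (R (R
  (R (R (L U)))))))))))))))))))))) (R (L (L (L (B (B (L (B (R (L (R (R (L (R (R (B (R (R (R (R (R
  (L U)))))) (R (L (R (R (R (L U)))))))))))))) (R (B (R (B (L (L (R (R (R (R (R (R (R (L
  U)))))))))) (L (B (R (R (R (L (R (R (R (L U)))))))) (R (L (L (R (R (R (R (L U)))))))))))) (R (L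
  (L (L (R (L (R (R (R (R (R (L U)))))))))))))))) (L (B (B (B (R (R (L (B (R (R (R (R (R (R (R (L
  U)))))))) (R (L (R (R (R (R (R (L U)))))))))))) (R (R (L (L (R (L (R (R (R (R (R (L
  U))))))))))))) (L (R (R (B (B (L (R (R (R (R (R (R (L U)))))))) (L (R (R (L (R (R (R (L
  U))))))))) (L (B (L (R (R (R (R (R (L U))))))) (L (L (R (R (R (R (L U)))))))))))))) (B (B (R (R
  (L (B (R (R (R (L (R (R (R (L U)))))))) (R (L (L (R (R (R (R (L U)))))))))))) (R (L (L (L (R (L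
  (R (R (R (R (R (L U))))))))))))) (L (R (L (L (L (L (R (R (R (R (R (R (L U))))))))))))))))) (B (L
  (L (R (B (B (R (L (L (R (R (R (R (R (R (R (L U))))))))))) (R (L (B (R (R (L (R (R (R (R (L
  U)))))))) (L (L (R (R (R (R (R (L U)))))))))))) (L (R (L (L (R (L (R (R (R (R (R (L
  U)))))))))))))))) (L (L (B (B (R (R (L (B (R (R (L (R (R (R (R (L U)))))))) (L (L (R (R (R (R (R
  (L U)))))))))))) (L (R (L (L (R (L (R (R (R (R (R (L U))))))))))))) (L (L (R (L (L (L (R (R (R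
  (R (R (R (L U)))))))))))))))))))))))) (R (B (R (L (L (L (L (B (L (L (R (R (R (B (L (L (R (R (R
  (R (R (R (R (L U)))))))))) (L (L (R (L (R (R (R (R (R (L U)))))))))))))))) (L (L (R (R (R (L (L
  (L (L (R (R (R (R (R (R (L U)))))))))))))))))))))) (R (L (L (L (L (B (L (L (R (L (B (R (L (R (R
  (L (R (R (R (R (R (L U))))))))))) (L (L (L (R (R (R (R (R (R (R (L U)))))))))))))))) (L (L (L (L
  (B (R (L (R (R (L (R (R (R (R (R (L U))))))))))) (L (L (L (R (R (R (R (R (R (R (L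
  U))))))))))))))))))))))))) (L (B (R (R (L (L (L (L (R (L (L (R (L (R (R (L (L (R (L (R (R (R (R
  (R (L U))))))))))))))))))))))) (B (R (L (L (L (L (R (L (L (R (R (L (R (L (L (R (L (R (R (R (R (R
  (L U)))))))))))))))))))))) (L (L (L (L (L (R (L (L (R (L (R (R (L (L (R (L (R (R (R (R (R (L
  U)))))))))))))))))))))))))) (B (B (B (R (R (L (L (L (B (B (B (B (R (B (R (R (L (B (R (R (R (R (R
  (R (R (L U)))))))) (R (L (R (R (R (R (R (L U)))))))))))) (R (R (L (L (R (L (R (R (R (R (R (L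
  U)))))))))))))) (R (B (R (R (L (B (R (R (R (L (R (R (R (L U)))))))) (R (L (L (R (R (R (R (L
  U)))))))))))) (R (L (L (L (R (L (R (R (R (R (R (L U))))))))))))))) (L (R (L (R (R (L (L (R (L (R
  (R (R (R (R (L U)))))))))))))))) (L (L (R (L (R (R (B (L (R (L (R (R (R (R (R (L U))))))))) (L
  (L (L (R (R (R (R (R (L U))))))))))))))))) (L (L (L (R (B (R (R (L (B (R (R (L (R (R (R (R (L
  U)))))))) (L (L (R (R (R (R (R (L U)))))))))))) (L (R (L (L (R (L (R (R (R (R (R (L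
  U))))))))))))))))))))))) (B (R (L (L (B (B (B (B (B (B (R (R (R (B (B (R (R (R (R (R (R (R (L
  U)))))))) (R (R (R (R (R (R (L (L U))))))))) (L (R (L (R (R (R (R (R (L U))))))))))))) (B (R (R
  (R (L (B (R (R (R (R (R (R (L U))))))) (R (R (R (R (L (R (L U)))))))))))) (R (R (L (L (R (L (R
  (R (R (R (R (L U)))))))))))))) (L (R (R (R (L (L (R (R (R (L (R (R (R (L U))))))))))))))) (L (R
  (L (R (R (L (B (B (R (R (R (R (R (R (L U))))))) (L (R (R (R (R (R (L U)))))))) (L (L (R (R (R (R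
  (R (L U)))))))))))))))) (L (L (B (R (R (R (L (L (R (L (R (R (R (R (R (L U))))))))))))) (L (R (R
  (L (L (L (R (R (R (R (R (R (L U))))))))))))))))) (L (L (L (L (R (R (R (L (L (R (R (L (R (R (R (R
  (L U)))))))))))))))))) (L (L (L (L (L (R (R (R (L (L (R (L (R (R (R (R (R (L
  U)))))))))))))))))))))) (R (L (L (L (B (L (L (B (L (L (R (R (L (B (R (R (R (R (R (R (R (L
  U)))))))) (R (R (R (L (R (R (R (L U)))))))))))))) (L (L (R (L (L (L (R (R (R (R (R (R (R (L
  U))))))))))))))))) (L (L (L (L (L (L (R (L (L (R (R (R (R (R (R (R (L U))))))))))))))))))))))))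
  (B (B (R (L (L (L (L (L (R (L (R (L (R (R (L (L (R (L (R (R (R (R (R (L U))))))))))))))))))))))
  (R (L (L (L (L (L (L (L (R (L (B (R (L (R (R (L (R (R (R (R (R (L U))))))))))) (L (L (L (R (R (R
  (R (R (R (R (L U))))))))))))))))))))))) (L (R (L (L (L (L (L (L (L (L (R (R (L (L (L (R (R (R (R
  (R (R (R (L U))))))))))))))))))))))))) (L (B (L (R (L (L (L (L (B (L (L (R (B (R (R (L (L (R (R
  (R (R (R (R (R (L U)))))))))))) (R (R (L (L (R (L (R (R (R (R (R (L U)))))))))))))))) (L (L (B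
  (R (R (R (L (L (R (L (R (R (R (R (R (L U))))))))))))) (L (R (R (L (L (L (R (R (R (R (R (R (L
  U))))))))))))))))))))))) (L (R (L (L (L (L (L (L (L (R (L (L (R (L (L (R (R (R (R (R (R (R (L
  U))))))))))))))))))))))))))) (B (L (B (R (B (R (L (L (L (B (B (L (B (R (B (R (R (L (B (R (R (R
  (R (R (R (R (L U)))))))) (L (R (R (R (R (R (R (L U)))))))))))) (R (R (L (L (R (L (R (R (R (R (R
  (L U)))))))))))))) (L (L (R (R (L (L (R (R (R (R (R (R (R (L U)))))))))))))))) (L (B (R (L (R (R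
  (L (L (L (R (R (R (R (R (R (L U)))))))))))))) (L (L (R (R (L (L (L (R (R (R (R (R (R (L
  U))))))))))))))))) (L (L (L (R (L (R (R (L (L (L (R (R (R (R (R (R (L U)))))))))))))))))))))) (B
  (L (L (L (L (B (L (L (R (R (R (R (L (L (R (L (R (R (R (R (R (L U)))))))))))))))) (L (L (L (R (R
  (R (L (L (R (L (R (R (R (R (R (L U))))))))))))))))))))) (L (L (L (L (B (L (L (B (L (R (R (L (R
  (R (L (R (R (R (R (R (L U))))))))))))) (L (L (R (L (L (R (R (R (R (R (R (R (L U))))))))))))))))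
  (L (L (L (L (L (R (L (L (R (R (R (R (R (R (R (L U)))))))))))))))))))))))) (L (L (R (L (L (L (L
  (B (L (L (R (L (R (R (L (L (R (R (R (R (R (R (R (L U)))))))))))))))) (L (L (R (L (R (R (L (L (L
  (R (R (R (R (R (R (L U)))))))))))))))))))))))))) (L (B (B (R (B (L (L (L (L (L (L (L (R (R (R (R
  (L (L (R (L (R (R (R (R (R (L U))))))))))))))))))))) (L (L (L (L (L (L (L (B (L (R (R (L (R (R
  (L (R (R (R (R (R (L U))))))))))))) (L (L (R (L (L (R (R (R (R (R (R (R (L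
  U))))))))))))))))))))))) (L (R (L (L (L (L (L (L (L (L (L (R (R (L (B (R (R (R (R (R (R (R (L
  U)))))))) (L (R (R (R (R (R (R (L U)))))))))))))))))))))))) (L (L (R (L (L (L (L (L (L (L (L (L
  (R (R (L (L (R (R (R (R (R (R (R (L U)))))))))))))))))))))))))))) (L (L (L (L (R (L (R (L (L (L
  (L (L (L (L (R (R (R (R (L (L (R (L (R (R (R (R (R (L U))))))))))))))))))))))))))))))) (L (L (L
  (L (L (L (L (B (R (R (L (L (L (L (B (L (L (R (B (R (R (L (L (R (R (R (R (R (R (R (L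
  U)))))))))))) (R (R (L (L (R (L (R (R (R (R (R (L U)))))))))))))))) (L (L (B (R (R (R (L (L (R
  (L (R (R (R (R (R (L U))))))))))))) (L (R (R (L (L (L (R (R (R (R (R (R (L
  U))))))))))))))))))))))) (B (R (L (L (L (L (B (L (L (B (R (R (R (L (L (R (R (R (R (R (R (R (L
  U))))))))))))) (R (R (R (L (L (R (L (R (R (R (R (R (L U)))))))))))))))) (L (L (L (R (R (R (L (L
  (L (R (R (R (R (R (R (L U)))))))))))))))))))))) (R (L (L (L (L (L (L (L (L (L (R (R (L (B (R (R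
  (R (R (R (R (R (L U)))))))) (R (L (R (R (R (R (R (L U)))))))))))))))))))))))))))))))))))

end Tr

end Pool.Agent.Lib.MP_b64830
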