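import Pool.Agent.Lib.MP_b64830.Masks

/-!
# Checking a certificate stored in binary tries, by divide and conquer

Functions on the sets of bits below `n` are stored in binary tries of depth `n`; the boundary, the
coboundary and the pairing are computed by recursion on the depth. The programs are written with
recursors, so that the kernel evaluates them quickly.
-/

namespace Pool.Agent.Lib.MP_b64830

namespace Tr

/-! ### The programs -/

/-- All stored values vanish. -/
noncomputable def az (t : Tr) : Bool :=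
  Tr.rec (motive := fun _ => Bool) true (fun u => Nat.beq u 0) (fun _ _ a b => and a b) t

/-- Multiplication by `s` modulo `q`. -/
noncomputable def scl (q s : ℕ) (t : Tr) : Tr :=
  Tr.rec (motive := fun _ => Tr) nil (fun u => leaf (Nat.mod (Nat.mul s u) q))
    (fun _ _ a b => node a b) t

/-- First trie plus `s` times the second one, modulo `q`. -/
noncomputable def mrg (q s : ℕ) (t : Tr) : Tr → Tr :=
  Tr.rec (motive := fun _ => Tr → Tr)
    (fun t' => scl q s t')
    (fun u t' => Tr.rec (motive := fun _ => Tr) (leaf u)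
      (fun v => leaf (Nat.mod (Nat.add u (Nat.mul s v)) q)) (fun _ _ _ _ => leaf u) t')
    (fun a b iha ihb t' => Tr.rec (motive := fun _ => Tr) (node a b)
      (fun _ => node a b) (fun c d _ _ => node (iha c) (ihb d)) t') t

/-- Checks that the boundary of the first trie plus `s` times the second one vanishes. -/
noncomputable def chk (q : ℕ) (t : Tr) : ℕ → Tr → Bool :=
  Tr.rec (motive := fun _ => ℕ → Tr → Bool)
    (fun _ t' => az t')
    (fun _ _ t' => az t')
    (fun _ a1 ih0 ih1 s t' => Tr.rec (motive := fun _ => Bool)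
      (and (ih0 s (scl q s a1)) (ih1 (Nat.sub q s) nil))
      (fun _ => false)
      (fun b0 b1 _ _ => and (ih0 s (mrg q s b0 a1)) (ih1 (Nat.sub q s) b1)) t') t

end Tr

/-- Entrywise comparison of lists. -/
noncomputable def leb (m : List ℕ) : List ℕ → Bool :=
  List.rec (motive := fun _ => List ℕ → Bool) (fun _ => true)
    (fun x _ ih rem => List.rec (motive := fun _ => Bool) false
      (fun y ys _ => and (Nat.ble x y) (ih ys)) rem) m

/-- Entrywise subtraction of lists. -/
noncomputable def subl (m : List ℕ) : List ℕ → List ℕ :=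
  List.rec (motive := fun _ => List ℕ → List ℕ) (fun rem => rem)
    (fun x _ ih rem => List.rec (motive := fun _ => List ℕ) []
      (fun y ys _ => Nat.sub y x :: ih ys) rem) m

namespace Tr

/-- Checks that all stored sets have `c` elements and weight at most `rem`. -/
noncomputable def okT (t : Tr) : List (List ℕ) → List ℕ → ℕ → Bool :=
  Tr.rec (motive := fun _ => List (List ℕ) → List ℕ → ℕ → Bool)
    (fun _ _ _ => true)
    (fun _ ms _ c => and (List.rec (motive := fun _ => Bool) true (fun _ _ _ => false) ms)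
      (Nat.beq c 0))
    (fun _ r ih0 ih1 ms rem c => List.rec (motive := fun _ => Bool) false
      (fun m ms' _ => and (ih0 ms' rem c)
        (Tr.rec (motive := fun _ => Bool) true
          (fun _ => and (leb m rem) (and (Nat.blt 0 c) (ih1 ms' (subl m rem) (Nat.sub c 1))))
          (fun _ _ _ _ => and (leb m rem)
            (and (Nat.blt 0 c) (ih1 ms' (subl m rem) (Nat.sub c 1)))) r)) ms) t

/-- All values stored at sets of weight at most `rem` vanish. -/
noncomputable def azC (t : Tr) : List (List ℕ) → List ℕ → Bool :=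
  Tr.rec (motive := fun _ => List (List ℕ) → List ℕ → Bool)
    (fun _ _ => true)
    (fun u _ _ => Nat.beq u 0)
    (fun _ _ ih0 ih1 ms rem => List.rec (motive := fun _ => Bool) false
      (fun m ms' _ => and (ih0 ms' rem)
        (Bool.rec (motive := fun _ => Bool) true (ih1 ms' (subl m rem)) (leb m rem))) ms) t

/-- Checks that the coboundary of the first trie plus `s` times the second one vanishes at all sets
of weight at most `rem`. -/
noncomputable def chkC (q : ℕ) (t : Tr) : ℕ → List (List ℕ) → List ℕ → Tr → Bool :=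
  Tr.rec (motive := fun _ => ℕ → List (List ℕ) → List ℕ → Tr → Bool)
    (fun _ ms rem t' => azC t' ms rem)
    (fun _ _ ms rem t' => azC t' ms rem)
    (fun a0 _ ih0 ih1 s ms rem t' => List.rec (motive := fun _ => Bool) false
      (fun m ms' _ => Tr.rec (motive := fun _ => Bool)
        (and (ih0 s ms' rem nil)
          (Bool.rec (motive := fun _ => Bool) true
            (ih1 (Nat.sub q s) ms' (subl m rem) (scl q s a0)) (leb m rem)))
        (fun _ => false)
        (fun b0 b1 _ _ => and (ih0 s ms' rem b0)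
          (Bool.rec (motive := fun _ => Bool) true
            (ih1 (Nat.sub q s) ms' (subl m rem) (mrg q s b1 a0)) (leb m rem))) t') ms) t

/-- `s` times the sum of the products of the values. -/
noncomputable def inn (q s : ℕ) (t : Tr) : Tr → ℕ :=
  Tr.rec (motive := fun _ => Tr → ℕ)
    (fun _ => 0)
    (fun u t' => Tr.rec (motive := fun _ => ℕ) 0
      (fun v => Nat.mod (Nat.mul s (Nat.mul u v)) q) (fun _ _ _ _ => 0) t')
    (fun _ _ ih0 ih1 t' => Tr.rec (motive := fun _ => ℕ) 0 (fun _ => 0)
      (fun p0 p1 _ _ => Nat.mod (Nat.add (ih0 p0) (ih1 p1)) q) t') t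

/-- `s` times the pairing of the first trie with the coboundary of the second one. -/
noncomputable def par (q : ℕ) (t : Tr) : ℕ → Tr → ℕ :=
  Tr.rec (motive := fun _ => ℕ → Tr → ℕ)
    (fun _ _ => 0)
    (fun _ _ _ => 0)
    (fun _ a1 ih0 ih1 s t' => Tr.rec (motive := fun _ => ℕ) 0 (fun _ => 0)
      (fun p0 p1 _ _ => Nat.mod (Nat.add (Nat.add (ih0 s p0) (inn q s a1 p0))
        (ih1 (Nat.sub q s) p1)) q) t') t

/-! ### Well-formed tries -/

/-- The trie has depth `n`. -/
def Wf : ℕ → Tr → Prop
  | _, nil => True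
  | 0, leaf _ => True
  | 0, node _ _ => False
  | _ + 1, leaf _ => False
  | n + 1, node l r => Wf n l ∧ Wf n r

lemma wf_nil (n : ℕ) : Wf n nil := by cases n <;> trivial

lemma get_succ_even (n K : ℕ) (l r : Tr) : get (n + 1) (2 * K) (node l r) = get n K l := by
  have h1 : (2 * K) % 2 = 0 := by omega
  have h2 : (2 * K) / 2 = K := by omega
  rw [get, h1, h2]
  rfl

lemma get_succ_odd (n K : ℕ) (l r : Tr) : get (n + 1) (2 * K + 1) (node l r) = get n K r := by
  have h1 : (2 * K + 1) % 2 = 1 := by omega
  have h2 : (2 * K + 1) / 2 = K := by omega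
  rw [get, h1, h2]
  rfl

lemma az_nil : az nil = true := rfl
lemma az_leaf (u : ℕ) : az (leaf u) = Nat.beq u 0 := rfl
lemma az_node (a b : Tr) : az (node a b) = and (az a) (az b) := rfl

lemma get_of_az : ∀ (t : Tr), az t = true → ∀ n k, get n k t = 0 := by
  intro t
  induction t with
  | nil => intro _ n k; exact get_nil n k
  | leaf u =>
    intro h n k
    have hu : u = 0 := Nat.eq_of_beq_eq_true h
    subst hu
    cases n <;> rfl
  | node l r ihl ihr =>
    intro h n k
    rw [az_node, Bool.and_eq_true] at h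
    cases n with
    | zero => rfl
    | succ n =>
      rw [get]
      rcases Nat.mod_two_eq_zero_or_one k with hk | hk
      · rw [hk]; exact ihl h.1 n _
      · rw [hk]; exact ihr h.2 n _

lemma scl_nil (q s : ℕ) : scl q s nil = nil := rfl
lemma scl_leaf (q s u : ℕ) : scl q s (leaf u) = leaf ((s * u) % q) := rfl
lemma scl_node (q s : ℕ) (a b : Tr) : scl q s (node a b) = node (scl q s a) (scl q s b) := rfl

lemma wf_scl (q s : ℕ) : ∀ (t : Tr) (n : ℕ), Wf n t → Wf n (scl q s t) := by
  intro t
  induction t with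
  | nil => intro n h; exact h
  | leaf u => intro n h; cases n with
    | zero => trivial
    | succ n => exact h
  | node a b iha ihb =>
    intro n h
    cases n with
    | zero => exact h
    | succ n => exact ⟨iha n h.1, ihb n h.2⟩

lemma get_scl (q s : ℕ) : ∀ (t : Tr) (n K : ℕ),
    ((get n K (scl q s t) : ℕ) : ZMod q) = (s : ZMod q) * ((get n K t : ℕ) : ZMod q) := by
  intro t
  induction t with
  | nil => intro n K; rw [scl_nil, get_nil]; simp
  | leaf u =>
    intro n K
    rw [scl_leaf]
    cases n with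
    | zero => simp [get]
    | succ n => simp [get]
  | node a b iha ihb =>
    intro n K
    rw [scl_node]
    cases n with
    | zero => simp [get]
    | succ n =>
      rw [get, get]
      rcases Nat.mod_two_eq_zero_or_one K with hk | hk
      · rw [hk]; exact iha n _
      · rw [hk]; exact ihb n _

lemma mrg_nil (q s : ℕ) (t : Tr) : mrg q s nil t = scl q s t := rfl
lemma mrg_leaf_nil (q s u : ℕ) : mrg q s (leaf u) nil = leaf u := rfl
lemma mrg_leaf_leaf (q s u v : ℕ) : mrg q s (leaf u) (leaf v) = leaf ((u + s * v) % q) := rfl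
lemma mrg_leaf_node (q s u : ℕ) (c d : Tr) : mrg q s (leaf u) (node c d) = leaf u := rfl
lemma mrg_node_nil (q s : ℕ) (a b : Tr) : mrg q s (node a b) nil = node a b := rfl
lemma mrg_node_leaf (q s v : ℕ) (a b : Tr) : mrg q s (node a b) (leaf v) = node a b := rfl
lemma mrg_node_node (q s : ℕ) (a b c d : Tr) :
    mrg q s (node a b) (node c d) = node (mrg q s a c) (mrg q s b d) := rfl

lemma wf_mrg (q s : ℕ) : ∀ (t t' : Tr) (n : ℕ), Wf n t → Wf n t' → Wf n (mrg q s t t') := by
  intro t
  induction t with
  | nil => intro t' n _ h'; exact wf_scl q s t' n h'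
  | leaf u =>
    intro t' n h h'
    cases n with
    | zero => cases t' <;> trivial
    | succ n => exact h.elim
  | node a b iha ihb =>
    intro t' n h h'
    cases n with
    | zero => exact h.elim
    | succ n =>
      cases t' with
      | nil => exact h
      | leaf v => exact h'.elim
      | node c d => exact ⟨iha c n h.1 h'.1, ihb d n h.2 h'.2⟩

lemma get_mrg (q s : ℕ) : ∀ (t t' : Tr) (n K : ℕ), Wf n t → Wf n t' →
    ((get n K (mrg q s t t') : ℕ) : ZMod q) =
      ((get n K t : ℕ) : ZMod q) + (s : ZMod q) * ((get n K t' : ℕ) : ZMod q) := by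
  intro t
  induction t with
  | nil => intro t' n K _ _; rw [mrg_nil, get_scl, get_nil]; simp
  | leaf u =>
    intro t' n K h h'
    cases n with
    | zero =>
      cases t' with
      | nil => rw [mrg_leaf_nil]; simp [get]
      | leaf v => rw [mrg_leaf_leaf]; simp [get]
      | node c d => exact h'.elim
    | succ n => exact h.elim
  | node a b iha ihb =>
    intro t' n K h h'
    cases n with
    | zero => exact h.elim
    | succ n =>
      cases t' with
      | nil => rw [mrg_node_nil, get_nil (n + 1) K]; simp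
      | leaf v => exact h'.elim
      | node c d =>
        rw [mrg_node_node, get, get, get]
        rcases Nat.mod_two_eq_zero_or_one K with hk | hk
        · rw [hk]; exact iha c n _ h.1 h'.1
        · rw [hk]; exact ihb d n _ h.2 h'.2

end Tr

/-! ### The boundary and the coboundary on masks -/

lemma popc_zero_succ_even (K t : ℕ) : popc (2 * K) 0 (t + 1) = popc K 0 t := by
  unfold popc
  refine Finset.card_bij' (fun u _ => u - 1) (fun u _ => u + 1) ?_ ?_ ?_ ?_
  · intro u hu
    simp only [Finset.mem_filter, Finset.mem_Ico] at hu ⊢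
    obtain ⟨⟨_, h1⟩, h2⟩ := hu
    cases u with
    | zero => simp at h2
    | succ u =>
      rw [Nat.testBit_succ, Nat.mul_div_cancel_left _ (by norm_num)] at h2
      exact ⟨⟨Nat.zero_le _, by simpa using h1⟩, by simpa using h2⟩
  · intro u hu
    simp only [Finset.mem_filter, Finset.mem_Ico] at hu ⊢
    rw [Nat.testBit_succ, Nat.mul_div_cancel_left _ (by norm_num)]
    exact ⟨⟨Nat.zero_le _, by omega⟩, hu.2⟩
  · intro u hu
    simp only [Finset.mem_filter, Finset.mem_Ico] at hu
    obtain ⟨⟨_, h1⟩, h2⟩ := hu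
    cases u with
    | zero => simp at h2
    | succ u => simp
  · intro u _
    simp

lemma popc_zero_succ_odd (K t : ℕ) : popc (2 * K + 1) 0 (t + 1) = popc K 0 t + 1 := by
  rw [← popc_zero_succ_even K t]
  unfold popc
  have h : (Finset.Ico 0 (t + 1)).filter (fun u => (2 * K + 1).testBit u = true) =
      insert 0 ((Finset.Ico 0 (t + 1)).filter (fun u => (2 * K).testBit u = true)) := by
    ext u
    simp only [Finset.mem_filter, Finset.mem_Ico, Finset.mem_insert]
    cases u with
    | zero => simp
    | succ u =>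
      have h1 : (2 * K + 1) / 2 = K := by omega
      have h2 : (2 * K) / 2 = K := by omega
      simp [Nat.testBit_succ, h1, h2]
  rw [h, Finset.card_insert_of_notMem]
  simp

lemma even_xor_one (K : ℕ) : (2 * K) ^^^ 2 ^ 0 = 2 * K + 1 := by
  apply Nat.eq_of_testBit_eq
  intro i
  rw [Nat.testBit_xor, Nat.testBit_two_pow]
  cases i with
  | zero => simp
  | succ i =>
    have h1 : (2 * K + 1) / 2 = K := by omega
    have h2 : (2 * K) / 2 = K := by omega
    simp [Nat.testBit_succ, h1, h2]

lemma odd_xor_one (K : ℕ) : (2 * K + 1) ^^^ 2 ^ 0 = 2 * K := by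
  rw [← even_xor_one, Nat.xor_assoc, Nat.xor_self, Nat.xor_zero]

lemma even_xor_succ (K t : ℕ) : (2 * K) ^^^ 2 ^ (t + 1) = 2 * (K ^^^ 2 ^ t) := by
  apply Nat.eq_of_testBit_eq
  intro i
  rw [Nat.testBit_xor, Nat.testBit_two_pow]
  cases i with
  | zero => simp
  | succ i =>
    have h1 : (2 * (K ^^^ 2 ^ t)) / 2 = K ^^^ 2 ^ t := by omega
    have h2 : (2 * K) / 2 = K := by omega
    rw [Nat.testBit_succ, Nat.testBit_succ, h1, h2, Nat.testBit_xor, Nat.testBit_two_pow]
    simp

lemma odd_xor_succ (K t : ℕ) : (2 * K + 1) ^^^ 2 ^ (t + 1) = 2 * (K ^^^ 2 ^ t) + 1 := by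
  rw [← even_xor_one K, ← even_xor_one (K ^^^ 2 ^ t), ← even_xor_succ, Nat.xor_assoc, Nat.xor_assoc,
    Nat.xor_comm (2 ^ 0)]

section

variable {R : Type*} [CommRing R]

/-- The boundary of a function on masks, at `K`. -/
def bdm (n K : ℕ) (a : ℕ → R) : R :=
  ∑ t ∈ Finset.range n, if K.testBit t = true then 0 else (-1) ^ popc K 0 t * a (K ^^^ 2 ^ t)

/-- The coboundary of a function on masks, at `K`. -/
def cobm (n K : ℕ) (a : ℕ → R) : R :=
  ∑ t ∈ Finset.range n, if K.testBit t = true then (-1) ^ popc K 0 t * a (K ^^^ 2 ^ t) else 0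

lemma popc_self (K i : ℕ) : popc K i i = 0 := by simp [popc]

lemma bdm_even (n K : ℕ) (a : ℕ → R) :
    bdm (n + 1) (2 * K) a = a (2 * K + 1) + bdm n K (fun M => a (2 * M)) := by
  unfold bdm
  rw [Finset.sum_range_succ', add_comm]
  have h2 : (2 * K) / 2 = K := by omega
  congr 1
  · rw [if_neg (by simp), popc_self, even_xor_one]; simp
  · refine Finset.sum_congr rfl fun t _ => ?_
    rw [Nat.testBit_succ, h2, popc_zero_succ_even, even_xor_succ]

lemma bdm_odd (n K : ℕ) (a : ℕ → R) :
    bdm (n + 1) (2 * K + 1) a = - bdm n K (fun M => a (2 * M + 1)) := by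
  unfold bdm
  rw [Finset.sum_range_succ']
  have h2 : (2 * K + 1) / 2 = K := by omega
  rw [if_pos (by simp), add_zero, ← Finset.sum_neg_distrib]
  refine Finset.sum_congr rfl fun t _ => ?_
  rw [Nat.testBit_succ, h2, popc_zero_succ_odd, odd_xor_succ]
  split_ifs
  · simp
  · ring

lemma cobm_even (n K : ℕ) (a : ℕ → R) :
    cobm (n + 1) (2 * K) a = cobm n K (fun M => a (2 * M)) := by
  unfold cobm
  rw [Finset.sum_range_succ']
  have h2 : (2 * K) / 2 = K := by omega
  rw [if_neg (by simp), add_zero]
  refine Finset.sum_congr rfl fun t _ => ?_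
  rw [Nat.testBit_succ, h2, popc_zero_succ_even, even_xor_succ]

lemma cobm_odd (n K : ℕ) (a : ℕ → R) :
    cobm (n + 1) (2 * K + 1) a = a (2 * K) - cobm n K (fun M => a (2 * M + 1)) := by
  unfold cobm
  rw [Finset.sum_range_succ', add_comm]
  have h2 : (2 * K + 1) / 2 = K := by omega
  rw [if_pos (by simp), popc_self, odd_xor_one, pow_zero, one_mul, sub_eq_add_neg,
    ← Finset.sum_neg_distrib]
  congr 1
  refine Finset.sum_congr rfl fun t _ => ?_
  rw [Nat.testBit_succ, h2, popc_zero_succ_odd, odd_xor_succ]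
  split_ifs
  · ring
  · simp

end

lemma even_or_odd_lt {n K : ℕ} (h : K < 2 ^ (n + 1)) :
    ∃ K' < 2 ^ n, K = 2 * K' ∨ K = 2 * K' + 1 := by
  refine ⟨K / 2, ?_, by omega⟩
  rw [pow_succ] at h
  omega

namespace Tr

lemma chk_nil (q s : ℕ) (t' : Tr) : chk q nil s t' = az t' := rfl
lemma chk_leaf (q s u : ℕ) (t' : Tr) : chk q (leaf u) s t' = az t' := rfl
lemma chk_node_nil (q s : ℕ) (a0 a1 : Tr) : chk q (node a0 a1) s nil =
    and (chk q a0 s (scl q s a1)) (chk q a1 (q - s) nil) := rfl
lemma chk_node_leaf (q s v : ℕ) (a0 a1 : Tr) : chk q (node a0 a1) s (leaf v) = false := rfl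
lemma chk_node_node (q s : ℕ) (a0 a1 b0 b1 : Tr) : chk q (node a0 a1) s (node b0 b1) =
    and (chk q a0 s (mrg q s b0 a1)) (chk q a1 (q - s) b1) := rfl

lemma get_zero_node (K : ℕ) (a b : Tr) : get 0 K (node a b) = 0 := rfl

lemma get_succ_even' (q n : ℕ) (a b : Tr) :
    (fun M => ((get (n + 1) (2 * M) (node a b) : ℕ) : ZMod q)) =
      fun M => ((get n M a : ℕ) : ZMod q) := by
  funext M
  rw [get_succ_even]

end Tr

end Pool.Agent.Lib.MP_b64830
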