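import Pool.Agent.Lib.MP_b64830.DcSound

/-!
# The certificate theorem
-/

namespace Pool.Agent.Lib.MP_b64830

open MvPolynomial

/-- the weight as an exponent vector -/
noncomputable def wt (r : ℕ) (al : List ℕ) : Fin (r + 1) →₀ ℕ :=
  Finsupp.equivFunOnFinite.symm fun x => al.getD x.val 0

variable {r d N : ℕ} (e : Fin N ≃o Mon r d)

lemma sum_toF {A : Type*} [AddCommMonoid A] (M : ℕ) (g : Mon r d → A) :
    ∑ m ∈ toF e M, g m = ∑ t : Fin N, if M.testBit t.val = true then g (e t) else 0 := by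
  classical
  unfold toF
  rw [Finset.sum_filter]
  rw [← e.toEquiv.sum_comp]
  refine Finset.sum_congr rfl fun t _ => ?_
  have : (e.symm (e.toEquiv t)) = t := e.symm_apply_apply t
  rw [this]
  rfl

lemma card_toF (M : ℕ) : (toF e M).card = wsum (List.replicate N 1) M := by
  rw [Finset.card_eq_sum_ones, sum_toF, wsum_eq, List.length_replicate, Finset.sum_range]
  refine Finset.sum_congr rfl fun t _ => ?_
  have : (List.replicate N 1).getD t.val 0 = 1 := by
    rw [List.getD_eq_getElem _ _ (by simp)]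
    simp
  rw [this]

/-- The mask of a set of monomials. -/
noncomputable def code (F : Finset (Mon r d)) : ℕ := Classical.choose (toF_surj e F)

lemma code_lt (F : Finset (Mon r d)) : code e F < 2 ^ N := (Classical.choose_spec (toF_surj e F)).1

lemma toF_code (F : Finset (Mon r d)) : toF e (code e F) = F :=
  (Classical.choose_spec (toF_surj e F)).2

lemma code_toF {K : ℕ} (hK : K < 2 ^ N) : code e (toF e K) = K :=
  toF_inj e (code_lt e _) hK (toF_code e _)

/-- The integer function on sets stored in a trie. -/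
noncomputable def fT (T : Tr) (F : Finset (Mon r d)) : ℤ := (Tr.get N (code e F) T : ℕ)

lemma fT_toF (T : Tr) {K : ℕ} (hK : K < 2 ^ N) : fT e T (toF e K) = (Tr.get N K T : ℕ) := by
  rw [fT, code_toF e hK]

lemma boundary_fT (q : ℕ) (T : Tr) {K : ℕ} (hK : K < 2 ^ N) :
    ((∑ f ∈ Finset.univ.filter (fun f => f ∉ toF e K),
      sg (toF e K) f * fT e T (insert f (toF e K)) : ℤ) : ZMod q) =
      bdm N K (Tr.vl (ZMod q) N T) := by
  classical
  have h2 : (Finset.univ.filter (fun f => f ∉ toF e K)) =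
      (Finset.univ.filter (fun t : Fin N => e t ∉ toF e K)).map e.toEquiv.toEmbedding := by
    ext m
    simp only [Finset.mem_filter, Finset.mem_univ, true_and, Finset.mem_map,
      Equiv.coe_toEmbedding]
    constructor
    · intro h
      exact ⟨e.symm m, by simpa using h, by simp⟩
    · rintro ⟨t, ht, rfl⟩
      exact ht
  rw [h2, Finset.sum_map, Finset.sum_filter, Int.cast_sum, bdm, Finset.sum_range]
  refine Finset.sum_congr rfl fun t _ => ?_
  have het : (e.toEquiv.toEmbedding t) = e t := rfl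
  rw [het]
  by_cases hb : K.testBit t.val = true
  · rw [if_pos hb, if_neg (not_not.2 ((e_mem_toF e).2 hb)), Int.cast_zero]
  · rw [if_neg hb, if_pos (fun h => hb ((e_mem_toF e).1 h)), sg_toF,
      ← toF_xor_of_notMem e hb, fT_toF e T (xor_lt hK t.2)]
    push_cast
    rfl

lemma coboundary_fT (q : ℕ) (T : Tr) {K : ℕ} (hK : K < 2 ^ N) :
    ((∑ f ∈ toF e K, sg (toF e K) f * fT e T ((toF e K).erase f) : ℤ) : ZMod q) =
      cobm N K (Tr.vl (ZMod q) N T) := by
  classical
  rw [sum_toF, Int.cast_sum, cobm, Finset.sum_range]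
  refine Finset.sum_congr rfl fun t _ => ?_
  by_cases hb : K.testBit t.val = true
  · rw [if_pos hb, if_pos hb, sg_toF, ← toF_xor_of_mem e hb, fT_toF e T (xor_lt hK t.2)]
    push_cast
    rfl
  · rw [if_neg hb, if_neg hb, Int.cast_zero]

lemma sum_finset_eq {A : Type*} [AddCommMonoid A] (g : Finset (Mon r d) → A) :
    ∑ F, g F = ∑ K ∈ Finset.range (2 ^ N), g (toF e K) := by
  classical
  refine Finset.sum_bij' (fun F _ => code e F) (fun K _ => toF e K) ?_ ?_ ?_ ?_ ?_
  · intro F _
    exact Finset.mem_range.2 (code_lt e F)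
  · intro K _
    exact Finset.mem_univ _
  · intro F _
    exact toF_code e F
  · intro K hK
    exact code_toF e (Finset.mem_range.1 hK)
  · intro F _
    rw [toF_code]

section

variable (ms : List (List ℕ)) (al : List ℕ)

lemma tot_toF_apply (hms : ms.length = N)
    (hexp : ∀ (x : Fin (r + 1)) (t : Fin N), ofLex (e t).1 x = (ms.getD t.val []).getD x.val 0)
    (M : ℕ) (x : Fin (r + 1)) : tot (toF e M) x = wx ms x.val M := by
  unfold tot wx
  rw [Finsupp.coe_finsetSum, Finset.sum_apply, sum_toF, wsum_eq, List.length_map, hms,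
    Finset.sum_range]
  refine Finset.sum_congr rfl fun t _ => ?_
  have h : (List.map (fun m : List ℕ => m.getD x.val 0) ms).getD t.val 0 =
      (ms.getD t.val []).getD x.val 0 := by
    have ht : t.val < ms.length := by rw [hms]; exact t.2
    rw [List.getD_eq_getElem _ _ (by rw [List.length_map]; exact ht),
      List.getD_eq_getElem _ _ ht, List.getElem_map]
  rw [ex_apply, hexp, h]

lemma tot_le_iff (hms : ms.length = N) (hal : al.length = r + 1)
    (hexp : ∀ (x : Fin (r + 1)) (t : Fin N), ofLex (e t).1 x = (ms.getD t.val []).getD x.val 0)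
    (M : ℕ) : tot (toF e M) ≤ wt r al ↔ wle ms al M := by
  constructor
  · intro h x hx
    rw [hal] at hx
    have := h ⟨x, hx⟩
    rw [tot_toF_apply e ms hms hexp] at this
    exact this
  · intro h x
    rw [tot_toF_apply e ms hms hexp]
    exact h x.val (by rw [hal]; exact x.2)

theorem cert_dc {k K : Type*} [Field k] [Field K] [CharZero K] (p : ℕ) [CharP k p]
    [hp : Fact p.Prime] (i j : ℕ) (hij : i + 1 ≤ j)
    (hms : ms.length = N) (hal : al.length = r + 1) (hml : ∀ m ∈ ms, m.length = r + 1)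
    (hexp : ∀ (x : Fin (r + 1)) (t : Fin N), ofLex (e t).1 x = (ms.getD t.val []).getD x.val 0)
    (hsum : (wt r al).degree = d * j)
    (W Φ : Tr)
    (hW : W.okT ms al (i + 1) = true)
    (hΦ : Φ.okT ms al i = true)
    (h2 : W.chk p 1 Tr.nil = true)
    (h3 : Φ.chkC p 1 ms al Tr.nil = true)
    (h4 : Nat.beq (W.par (p ^ 2) 1 Φ % p ^ 2) 0 = false) :
    rk k (fun s : Idx r d (i + 1) j => uv s.1) < rk K (fun s : Idx r d (i + 1) j => uv s.1) := by
  classical
  have hml' : ∀ m ∈ ms, m.length = al.length := fun m hm => by rw [hml m hm, hal]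
  have hones : ∀ n, (fun n => List.replicate n 1) (n + 1) = 1 :: (fun n => List.replicate n 1) n :=
    fun n => List.replicate_succ
  obtain ⟨hWf, hW'⟩ := Tr.okT_sound (fun n => List.replicate n 1) rfl hones W ms al (i + 1) hml' hW
  obtain ⟨hΦf, hΦ'⟩ := Tr.okT_sound (fun n => List.replicate n 1) rfl hones Φ ms al i hml' hΦ
  rw [hms] at hWf hW' hΦf hΦ'
  have hp1 : 1 ≤ p := hp.out.one_lt.le
  have hpp : 1 ≤ p ^ 2 := Nat.one_le_pow _ _ hp1
  refine rk_lt_of_cert p i j hij (wt r al) hsum (fT e W) (fT e Φ) ?_ ?_ ?_ ?_ ?_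
  · intro F hF
    obtain ⟨M, hM, rfl⟩ := toF_surj e F
    rw [fT_toF e W hM] at hF
    obtain ⟨h5, h6⟩ := hW' M hM (by exact_mod_cast hF)
    exact ⟨by rw [card_toF]; exact h6, (tot_le_iff e ms al hms hal hexp M).2 h5⟩
  · intro G hG
    obtain ⟨M, hM, rfl⟩ := toF_surj e G
    rw [fT_toF e Φ hM] at hG
    obtain ⟨h5, _⟩ := hΦ' M hM (by exact_mod_cast hG)
    exact (tot_le_iff e ms al hms hal hexp M).2 h5
  · intro G
    obtain ⟨M, hM, rfl⟩ := toF_surj e G
    rw [← ZMod.intCast_zmod_eq_zero_iff_dvd, boundary_fT e p W hM]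
    have := Tr.chk_sound p W Tr.nil N 1 hp1 (by simp) hWf (Tr.wf_nil _) h2 M hM
    rw [Tr.vl_nil] at this
    simpa using this
  · intro F hF
    obtain ⟨M, hM, rfl⟩ := toF_surj e F
    rw [← ZMod.intCast_zmod_eq_zero_iff_dvd, coboundary_fT e p Φ hM]
    have := Tr.chkC_sound p Φ Tr.nil 1 ms al hp1 (by simp) (by rw [hms]; exact hΦf) (Tr.wf_nil _)
      hml' h3 M (by rw [hms]; exact hM) ((tot_le_iff e ms al hms hal hexp M).1 hF)
    rw [Tr.vl_nil, hms] at this
    simpa using this
  · intro h5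
    have h6 : ((∑ F, fT e W F * ∑ f ∈ F, sg F f * fT e Φ (F.erase f) : ℤ) : ZMod (p ^ 2)) = 0 := by
      rw [ZMod.intCast_zmod_eq_zero_iff_dvd]
      push_cast
      exact h5
    have h7 := Tr.par_sound (p ^ 2) W Φ N 1 hpp hWf hΦf
    rw [sum_finset_eq e, Int.cast_sum] at h6
    have h8 : ∑ M ∈ Finset.range (2 ^ N), ((fT e W (toF e M) * ∑ f ∈ toF e M,
        sg (toF e M) f * fT e Φ ((toF e M).erase f) : ℤ) : ZMod (p ^ 2)) =
        ∑ M ∈ Finset.range (2 ^ N), Tr.vl (ZMod (p ^ 2)) N W M *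
          cobm N M (Tr.vl (ZMod (p ^ 2)) N Φ) := by
      refine Finset.sum_congr rfl fun M hM => ?_
      have hM' := Finset.mem_range.1 hM
      rw [Int.cast_mul, coboundary_fT e (p ^ 2) Φ hM', fT_toF e W hM']
      congr 1
      simp [Tr.vl]
    rw [h8] at h6
    rw [h6, mul_zero] at h7
    rw [ZMod.natCast_eq_zero_iff] at h7
    rw [Nat.mod_eq_zero_of_dvd h7] at h4
    exact absurd h4 (by decide)

end

end Pool.Agent.Lib.MP_b64830
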