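import Pool.Agent.Lib.MP_b64830.Dc

/-!
# Soundness of the divide and conquer programs
-/

namespace Pool.Agent.Lib.MP_b64830

namespace Tr

section

variable (R : Type*) [CommRing R]

/-- The values of a trie of depth `n`, as a function on masks. -/
def vl (n : ℕ) (T : Tr) (M : ℕ) : R := ((get n M T : ℕ) : R)

lemma vl_nil (n M : ℕ) : vl R n nil M = 0 := by
  rw [vl, get_nil]; simp

lemma vl_even (n M : ℕ) (a b : Tr) : vl R (n + 1) (node a b) (2 * M) = vl R n a M := by
  rw [vl, get_succ_even]; rfl

lemma vl_odd (n M : ℕ) (a b : Tr) : vl R (n + 1) (node a b) (2 * M + 1) = vl R n b M := by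
  rw [vl, get_succ_odd]; rfl

lemma bdm_node_even (n K : ℕ) (a b : Tr) :
    bdm (n + 1) (2 * K) (vl R (n + 1) (node a b)) = vl R n b K + bdm n K (vl R n a) := by
  rw [bdm_even, vl_odd]
  simp only [vl_even]

lemma bdm_node_odd (n K : ℕ) (a b : Tr) :
    bdm (n + 1) (2 * K + 1) (vl R (n + 1) (node a b)) = - bdm n K (vl R n b) := by
  rw [bdm_odd]
  simp only [vl_odd]

lemma cobm_node_even (n K : ℕ) (a b : Tr) :
    cobm (n + 1) (2 * K) (vl R (n + 1) (node a b)) = cobm n K (vl R n a) := by
  rw [cobm_even]
  simp only [vl_even]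

lemma cobm_node_odd (n K : ℕ) (a b : Tr) :
    cobm (n + 1) (2 * K + 1) (vl R (n + 1) (node a b)) = vl R n a K - cobm n K (vl R n b) := by
  rw [cobm_odd, vl_even]
  simp only [vl_odd]

lemma bdm_nil (n K : ℕ) : bdm n K (vl R n nil) = 0 := by
  unfold bdm
  refine Finset.sum_eq_zero fun t _ => ?_
  rw [vl_nil]
  simp

lemma cobm_nil (n K : ℕ) : cobm n K (vl R n nil) = 0 := by
  unfold cobm
  refine Finset.sum_eq_zero fun t _ => ?_
  rw [vl_nil]
  simp

lemma bdm_zero (K : ℕ) (a : ℕ → R) : bdm 0 K a = 0 := by simp [bdm]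

lemma cobm_zero (K : ℕ) (a : ℕ → R) : cobm 0 K a = 0 := by simp [cobm]

end

lemma vl_scl (q s n K : ℕ) (t : Tr) :
    vl (ZMod q) n (scl q s t) K = (s : ZMod q) * vl (ZMod q) n t K := get_scl q s t n K

lemma vl_mrg (q s n K : ℕ) (t t' : Tr) (h : Wf n t) (h' : Wf n t') :
    vl (ZMod q) n (mrg q s t t') K = vl (ZMod q) n t K + (s : ZMod q) * vl (ZMod q) n t' K :=
  get_mrg q s t t' n K h h'

lemma cast_sub_sign {q s : ℕ} (h : s ≤ q) : ((q - s : ℕ) : ZMod q) = - (s : ZMod q) := by
  rw [Nat.cast_sub h]; simp

theorem chk_sound (q : ℕ) : ∀ (A B : Tr) (n s : ℕ), s ≤ q → (s : ZMod q) ^ 2 = 1 → Wf n A →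
    Wf n B → chk q A s B = true → ∀ K < 2 ^ n,
    bdm n K (vl (ZMod q) n A) + (s : ZMod q) * vl (ZMod q) n B K = 0 := by
  intro A
  induction A with
  | nil =>
    intro B n s _ _ _ _ h K _
    rw [chk_nil] at h
    rw [bdm_nil, vl, get_of_az B h]
    simp
  | leaf u =>
    intro B n s _ _ hA _ h K _
    rw [chk_leaf] at h
    cases n with
    | zero =>
      rw [bdm_zero, vl, get_of_az B h]
      simp
    | succ n => exact hA.elim
  | node a0 a1 ih0 ih1 =>
    intro B n s hs hs2 hA hB h K hK
    cases n with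
    | zero => exact hA.elim
    | succ n =>
      have hs' : q - s ≤ q := Nat.sub_le _ _
      have hs2' : ((q - s : ℕ) : ZMod q) ^ 2 = 1 := by rw [cast_sub_sign hs, neg_sq, hs2]
      obtain ⟨K', hK', hK2⟩ := even_or_odd_lt hK
      cases B with
      | nil =>
        rw [chk_node_nil, Bool.and_eq_true] at h
        rcases hK2 with rfl | rfl
        · have h1 := ih0 _ n s hs hs2 hA.1 (wf_scl q s _ n hA.2) h.1 K' hK'
          rw [vl_scl] at h1
          rw [bdm_node_even, vl_nil]
          linear_combination h1 - (vl (ZMod q) n a1 K') * hs2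
        · have h1 := ih1 _ n _ hs' hs2' hA.2 (wf_nil n) h.2 K' hK'
          rw [vl_nil] at h1
          rw [bdm_node_odd, vl_nil]
          linear_combination - h1
      | leaf v => exact hB.elim
      | node b0 b1 =>
        rw [chk_node_node, Bool.and_eq_true] at h
        rcases hK2 with rfl | rfl
        · have h1 := ih0 _ n s hs hs2 hA.1 (wf_mrg q s _ _ n hB.1 hA.2) h.1 K' hK'
          rw [vl_mrg q s n K' _ _ hB.1 hA.2] at h1
          rw [bdm_node_even, vl_even]
          linear_combination h1 - (vl (ZMod q) n a1 K') * hs2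
        · have h1 := ih1 _ n _ hs' hs2' hA.2 hB.2 h.2 K' hK'
          rw [cast_sub_sign hs] at h1
          rw [bdm_node_odd, vl_odd]
          linear_combination - h1

end Tr

/-! ### Lists of exponents -/

lemma leb_cons_cons (x y : ℕ) (m rem : List ℕ) :
    leb (x :: m) (y :: rem) = and (Nat.ble x y) (leb m rem) := rfl

lemma subl_cons_cons (x y : ℕ) (m rem : List ℕ) :
    subl (x :: m) (y :: rem) = (y - x) :: subl m rem := rfl

lemma leb_iff : ∀ (m rem : List ℕ), m.length = rem.length →
    (leb m rem = true ↔ ∀ x < rem.length, m.getD x 0 ≤ rem.getD x 0) := by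
  intro m
  induction m with
  | nil =>
    intro rem h
    have : rem = [] := List.length_eq_zero_iff.1 h.symm
    subst this
    simp [leb]
  | cons a m ih =>
    intro rem h
    cases rem with
    | nil => simp at h
    | cons b rem =>
      rw [leb_cons_cons, Bool.and_eq_true, Nat.ble_eq, ih rem (by simpa using h)]
      constructor
      · rintro ⟨h1, h2⟩ x hx
        cases x with
        | zero => simpa using h1
        | succ x => simpa using h2 x (by simpa using hx)
      · intro h1
        refine ⟨by simpa using h1 0 (by simp), fun x hx => ?_⟩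
        simpa using h1 (x + 1) (by simpa using hx)

lemma subl_length : ∀ (m rem : List ℕ), m.length = rem.length → (subl m rem).length = rem.length := by
  intro m
  induction m with
  | nil => intro rem _; rfl
  | cons a m ih =>
    intro rem h
    cases rem with
    | nil => simp at h
    | cons b rem => rw [subl_cons_cons]; simp [ih rem (by simpa using h)]

lemma subl_getD : ∀ (m rem : List ℕ), m.length = rem.length → ∀ x,
    (subl m rem).getD x 0 = rem.getD x 0 - m.getD x 0 := by
  intro m
  induction m with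
  | nil =>
    intro rem _ x
    show rem.getD x 0 = _
    simp
  | cons a m ih =>
    intro rem h x
    cases rem with
    | nil => simp at h
    | cons b rem =>
      rw [subl_cons_cons]
      cases x with
      | zero => simp
      | succ x => simpa using ih rem (by simpa using h) x

/-- The exponent of the variable `x` in the product of the monomials of a mask. -/
def wx (ms : List (List ℕ)) (x K : ℕ) : ℕ := wsum (ms.map fun m => m.getD x 0) K

/-- The weight of a mask is at most `rem`. -/
def wle (ms : List (List ℕ)) (rem : List ℕ) (K : ℕ) : Prop :=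
  ∀ x < rem.length, wx ms x K ≤ rem.getD x 0

lemma wsum_even (c : ℕ) (cs : List ℕ) (K : ℕ) : wsum (c :: cs) (2 * K) = wsum cs K := by
  have h1 : (2 * K) % 2 = 0 := by omega
  have h2 : (2 * K) / 2 = K := by omega
  rw [wsum, h1, h2]
  rfl

lemma wsum_odd (c : ℕ) (cs : List ℕ) (K : ℕ) : wsum (c :: cs) (2 * K + 1) = c + wsum cs K := by
  have h1 : (2 * K + 1) % 2 = 1 := by omega
  have h2 : (2 * K + 1) / 2 = K := by omega
  rw [wsum, h1, h2]
  rfl

lemma wx_even (m : List ℕ) (ms : List (List ℕ)) (x K : ℕ) : wx (m :: ms) x (2 * K) = wx ms x K := by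
  rw [wx, List.map_cons, wsum_even]; rfl

lemma wx_odd (m : List ℕ) (ms : List (List ℕ)) (x K : ℕ) :
    wx (m :: ms) x (2 * K + 1) = m.getD x 0 + wx ms x K := by
  rw [wx, List.map_cons, wsum_odd]; rfl

lemma wle_even (m : List ℕ) (ms : List (List ℕ)) (rem : List ℕ) (K : ℕ) :
    wle (m :: ms) rem (2 * K) ↔ wle ms rem K := by
  unfold wle
  simp only [wx_even]

lemma wle_odd (m : List ℕ) (ms : List (List ℕ)) (rem : List ℕ) (K : ℕ)
    (hl : m.length = rem.length) :
    wle (m :: ms) rem (2 * K + 1) ↔ leb m rem = true ∧ wle ms (subl m rem) K := by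
  rw [leb_iff m rem hl]
  unfold wle
  rw [subl_length m rem hl]
  simp only [wx_odd, subl_getD m rem hl]
  constructor
  · intro h
    exact ⟨fun x hx => by have := h x hx; omega, fun x hx => by have := h x hx; omega⟩
  · rintro ⟨h1, h2⟩ x hx
    have := h1 x hx
    have := h2 x hx
    omega

namespace Tr

lemma okT_nil (ms : List (List ℕ)) (rem : List ℕ) (c : ℕ) : okT nil ms rem c = true := rfl
lemma okT_leaf_nil (u : ℕ) (rem : List ℕ) (c : ℕ) : okT (leaf u) [] rem c = Nat.beq c 0 := rfl
lemma okT_leaf_cons (u : ℕ) (m : List ℕ) (ms : List (List ℕ)) (rem : List ℕ) (c : ℕ) :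
    okT (leaf u) (m :: ms) rem c = false := rfl
lemma okT_node_nil (l r : Tr) (rem : List ℕ) (c : ℕ) : okT (node l r) [] rem c = false := rfl
lemma okT_node_cons_nil (l : Tr) (m : List ℕ) (ms : List (List ℕ)) (rem : List ℕ) (c : ℕ) :
    okT (node l nil) (m :: ms) rem c = and (okT l ms rem c) true := rfl
lemma okT_node_cons (l r : Tr) (hr : r ≠ nil) (m : List ℕ) (ms : List (List ℕ)) (rem : List ℕ)
    (c : ℕ) :
    okT (node l r) (m :: ms) rem c = and (okT l ms rem c)
      (and (leb m rem) (and (Nat.blt 0 c) (okT r ms (subl m rem) (c - 1)))) := by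
  cases r with
  | nil => exact absurd rfl hr
  | leaf u => rfl
  | node a b => rfl

theorem okT_sound (ones : ℕ → List ℕ) (hones0 : ones 0 = []) (hones : ∀ n, ones (n + 1) = 1 :: ones n) :
    ∀ (T : Tr) (ms : List (List ℕ)) (rem : List ℕ) (c : ℕ),
    (∀ m ∈ ms, m.length = rem.length) → okT T ms rem c = true →
    Wf ms.length T ∧ ∀ K < 2 ^ ms.length, get ms.length K T ≠ 0 →
      wle ms rem K ∧ wsum (ones ms.length) K = c := by
  intro T
  induction T with
  | nil =>
    intro ms rem c _ _
    exact ⟨wf_nil _, fun K _ h => absurd (get_nil _ _) h⟩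
  | leaf u =>
    intro ms rem c _ h
    cases ms with
    | nil =>
      rw [okT_leaf_nil] at h
      refine ⟨trivial, fun K _ _ => ⟨fun x _ => by simp [wx, wsum], ?_⟩⟩
      rw [Nat.eq_of_beq_eq_true h, List.length_nil, hones0]
      rfl
    | cons m ms => rw [okT_leaf_cons] at h; exact absurd h (by decide)
  | node l r ihl ihr =>
    intro ms rem c hl h
    cases ms with
    | nil => rw [okT_node_nil] at h; exact absurd h (by decide)
    | cons m ms =>
      have hl' : ∀ m' ∈ ms, m'.length = rem.length := fun m' hm' => hl m' (List.mem_cons_of_mem _ hm')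
      have hm : m.length = rem.length := hl m List.mem_cons_self
      by_cases hr : r = nil
      · subst hr
        rw [okT_node_cons_nil, Bool.and_true] at h
        obtain ⟨h1, h2⟩ := ihl ms rem c hl' h
        refine ⟨⟨h1, wf_nil _⟩, ?_⟩
        intro K hK hne
        rw [List.length_cons] at hK hne ⊢
        obtain ⟨K', hK', rfl | rfl⟩ := even_or_odd_lt hK
        · rw [get_succ_even] at hne
          rw [hones, wsum_even, wle_even]
          exact h2 K' hK' hne
        · rw [get_succ_odd, get_nil] at hne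
          exact absurd rfl hne
      · rw [okT_node_cons l r hr, Bool.and_eq_true, Bool.and_eq_true, Bool.and_eq_true] at h
        obtain ⟨h1, h3, h4, h5⟩ := h
        obtain ⟨h1, h2⟩ := ihl ms rem c hl' h1
        rw [Nat.blt_eq] at h4
        obtain ⟨h6, h7⟩ := ihr ms (subl m rem) (c - 1)
          (fun m' hm' => by rw [subl_length m rem hm]; exact hl' m' hm') h5
        refine ⟨⟨h1, h6⟩, ?_⟩
        intro K hK hne
        rw [List.length_cons] at hK hne ⊢
        obtain ⟨K', hK', rfl | rfl⟩ := even_or_odd_lt hK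
        · rw [get_succ_even] at hne
          rw [hones, wsum_even, wle_even]
          exact h2 K' hK' hne
        · rw [get_succ_odd] at hne
          rw [hones, wsum_odd, wle_odd m ms rem K' hm]
          obtain ⟨h8, h9⟩ := h7 K' hK' hne
          exact ⟨⟨h3, h8⟩, by omega⟩

lemma azC_nil (ms : List (List ℕ)) (rem : List ℕ) : azC nil ms rem = true := rfl
lemma azC_leaf (u : ℕ) (ms : List (List ℕ)) (rem : List ℕ) : azC (leaf u) ms rem = Nat.beq u 0 := rfl
lemma azC_node_nil (l r : Tr) (rem : List ℕ) : azC (node l r) [] rem = false := rfl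
lemma azC_node_cons (l r : Tr) (m : List ℕ) (ms : List (List ℕ)) (rem : List ℕ) :
    azC (node l r) (m :: ms) rem = and (azC l ms rem)
      (Bool.rec (motive := fun _ => Bool) true (azC r ms (subl m rem)) (leb m rem)) := rfl

lemma azC_sound : ∀ (T : Tr) (ms : List (List ℕ)) (rem : List ℕ),
    (∀ m ∈ ms, m.length = rem.length) → azC T ms rem = true → ∀ K < 2 ^ ms.length,
      wle ms rem K → get ms.length K T = 0 := by
  intro T
  induction T with
  | nil => intro ms rem _ _ K _ _; exact get_nil _ _
  | leaf u =>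
    intro ms rem _ h K _ _
    rw [azC_leaf] at h
    have hu : u = 0 := Nat.eq_of_beq_eq_true h
    subst hu
    cases ms.length <;> rfl
  | node l r ihl ihr =>
    intro ms rem hl h K hK hle
    cases ms with
    | nil => rw [azC_node_nil] at h; exact absurd h (by decide)
    | cons m ms =>
      have hl' : ∀ m' ∈ ms, m'.length = rem.length := fun m' hm' => hl m' (List.mem_cons_of_mem _ hm')
      have hm : m.length = rem.length := hl m List.mem_cons_self
      rw [azC_node_cons, Bool.and_eq_true] at h
      rw [List.length_cons] at hK ⊢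
      obtain ⟨K', hK', rfl | rfl⟩ := even_or_odd_lt hK
      · rw [get_succ_even]
        exact ihl ms rem hl' h.1 K' hK' ((wle_even _ _ _ _).1 hle)
      · rw [get_succ_odd]
        obtain ⟨h1, h2⟩ := (wle_odd _ _ _ _ hm).1 hle
        have h3 := h.2
        rw [h1] at h3
        exact ihr ms _ (fun m' hm' => by rw [subl_length m rem hm]; exact hl' m' hm') h3 K' hK' h2

lemma chkC_nil (q s : ℕ) (ms : List (List ℕ)) (rem : List ℕ) (t' : Tr) :
    chkC q nil s ms rem t' = azC t' ms rem := rfl
lemma chkC_leaf (q s u : ℕ) (ms : List (List ℕ)) (rem : List ℕ) (t' : Tr) :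
    chkC q (leaf u) s ms rem t' = azC t' ms rem := rfl
lemma chkC_node_nil (q s : ℕ) (a0 a1 : Tr) (rem : List ℕ) (t' : Tr) :
    chkC q (node a0 a1) s [] rem t' = false := rfl
lemma chkC_node_cons_nil (q s : ℕ) (a0 a1 : Tr) (m : List ℕ) (ms : List (List ℕ)) (rem : List ℕ) :
    chkC q (node a0 a1) s (m :: ms) rem nil = and (chkC q a0 s ms rem nil)
      (Bool.rec (motive := fun _ => Bool) true
        (chkC q a1 (q - s) ms (subl m rem) (scl q s a0)) (leb m rem)) := rfl
lemma chkC_node_cons_node (q s : ℕ) (a0 a1 b0 b1 : Tr) (m : List ℕ) (ms : List (List ℕ))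
    (rem : List ℕ) :
    chkC q (node a0 a1) s (m :: ms) rem (node b0 b1) = and (chkC q a0 s ms rem b0)
      (Bool.rec (motive := fun _ => Bool) true
        (chkC q a1 (q - s) ms (subl m rem) (mrg q s b1 a0)) (leb m rem)) := rfl

theorem chkC_sound (q : ℕ) : ∀ (A B : Tr) (s : ℕ) (ms : List (List ℕ)) (rem : List ℕ), s ≤ q →
    (s : ZMod q) ^ 2 = 1 → Wf ms.length A → Wf ms.length B → (∀ m ∈ ms, m.length = rem.length) →
    chkC q A s ms rem B = true → ∀ K < 2 ^ ms.length, wle ms rem K →
    cobm ms.length K (vl (ZMod q) ms.length A) + (s : ZMod q) * vl (ZMod q) ms.length B K = 0 := by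
  intro A
  induction A with
  | nil =>
    intro B s ms rem _ _ _ _ hl h K hK hle
    rw [chkC_nil] at h
    rw [cobm_nil, vl, azC_sound B ms rem hl h K hK hle]
    simp
  | leaf u =>
    intro B s ms rem _ _ hA _ hl h K hK hle
    rw [chkC_leaf] at h
    cases ms with
    | nil =>
      rw [List.length_nil] at *
      rw [cobm_zero, vl]
      have := azC_sound B [] rem hl h K hK hle
      rw [List.length_nil] at this
      rw [this]
      simp
    | cons m ms => exact hA.elim
  | node a0 a1 ih0 ih1 =>
    intro B s ms rem hs hs2 hA hB hl h K hK hle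
    cases ms with
    | nil => exact hA.elim
    | cons m ms =>
      have hl' : ∀ m' ∈ ms, m'.length = rem.length := fun m' hm' => hl m' (List.mem_cons_of_mem _ hm')
      have hm : m.length = rem.length := hl m List.mem_cons_self
      have hl'' : ∀ m' ∈ ms, m'.length = (subl m rem).length := fun m' hm' => by
        rw [subl_length m rem hm]; exact hl' m' hm'
      have hs' : q - s ≤ q := Nat.sub_le _ _
      have hs2' : ((q - s : ℕ) : ZMod q) ^ 2 = 1 := by rw [cast_sub_sign hs, neg_sq, hs2]
      rw [List.length_cons] at hK ⊢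
      obtain ⟨K', hK', hK2⟩ := even_or_odd_lt hK
      cases B with
      | nil =>
        rw [chkC_node_cons_nil, Bool.and_eq_true] at h
        rcases hK2 with rfl | rfl
        · have h1 := ih0 nil s ms rem hs hs2 hA.1 (wf_nil _) hl' h.1 K' hK'
            ((wle_even _ _ _ _).1 hle)
          rw [vl_nil] at h1
          rw [cobm_node_even, vl_nil]
          linear_combination h1
        · obtain ⟨h2, h3⟩ := (wle_odd _ _ _ _ hm).1 hle
          have h4 := h.2
          rw [h2] at h4
          have h1 := ih1 _ _ ms _ hs' hs2' hA.2 (wf_scl q s _ _ hA.1) hl'' h4 K' hK' h3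
          rw [vl_scl, cast_sub_sign hs] at h1
          rw [cobm_node_odd, vl_nil]
          linear_combination - h1 - (vl (ZMod q) ms.length a0 K') * hs2
      | leaf v => exact hB.elim
      | node b0 b1 =>
        rw [chkC_node_cons_node, Bool.and_eq_true] at h
        rcases hK2 with rfl | rfl
        · have h1 := ih0 b0 s ms rem hs hs2 hA.1 hB.1 hl' h.1 K' hK' ((wle_even _ _ _ _).1 hle)
          rw [cobm_node_even, vl_even]
          linear_combination h1
        · obtain ⟨h2, h3⟩ := (wle_odd _ _ _ _ hm).1 hle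
          have h4 := h.2
          rw [h2] at h4
          have h1 := ih1 _ _ ms _ hs' hs2' hA.2 (wf_mrg q s _ _ _ hB.2 hA.1) hl'' h4 K' hK' h3
          rw [vl_mrg q s _ K' _ _ hB.2 hA.1, cast_sub_sign hs] at h1
          rw [cobm_node_odd, vl_odd]
          linear_combination - h1 - (vl (ZMod q) ms.length a0 K') * hs2

/-! ### Pairings -/

lemma sum_range_two_mul {A : Type*} [AddCommMonoid A] (f : ℕ → A) (m : ℕ) :
    ∑ K ∈ Finset.range (2 * m), f K =
      ∑ K ∈ Finset.range m, f (2 * K) + ∑ K ∈ Finset.range m, f (2 * K + 1) := by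
  induction m with
  | zero => simp
  | succ m ih =>
    rw [mul_add, mul_one, Finset.sum_range_succ, Finset.sum_range_succ, ih, Finset.sum_range_succ,
      Finset.sum_range_succ]
    abel

lemma inn_nil (q s : ℕ) (t' : Tr) : inn q s nil t' = 0 := rfl
lemma inn_leaf_nil (q s u : ℕ) : inn q s (leaf u) nil = 0 := rfl
lemma inn_leaf_leaf (q s u v : ℕ) : inn q s (leaf u) (leaf v) = (s * (u * v)) % q := rfl
lemma inn_node_nil (q s : ℕ) (a b : Tr) : inn q s (node a b) nil = 0 := rfl
lemma inn_node_node (q s : ℕ) (a b c d : Tr) :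
    inn q s (node a b) (node c d) = (inn q s a c + inn q s b d) % q := rfl

theorem inn_sound (q : ℕ) : ∀ (A B : Tr) (n s : ℕ), Wf n A → Wf n B →
    ((inn q s A B : ℕ) : ZMod q) = (s : ZMod q) *
      ∑ K ∈ Finset.range (2 ^ n), vl (ZMod q) n A K * vl (ZMod q) n B K := by
  intro A
  induction A with
  | nil =>
    intro B n s _ _
    rw [inn_nil]
    simp [vl_nil]
  | leaf u =>
    intro B n s hA hB
    cases n with
    | zero =>
      cases B with
      | nil => rw [inn_leaf_nil]; simp [vl_nil]
      | leaf v => rw [inn_leaf_leaf]; simp [vl, get]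
      | node c d => exact hB.elim
    | succ n => exact hA.elim
  | node a b iha ihb =>
    intro B n s hA hB
    cases n with
    | zero => exact hA.elim
    | succ n =>
      cases B with
      | nil => rw [inn_node_nil]; simp [vl_nil]
      | leaf v => exact hB.elim
      | node c d =>
        rw [inn_node_node, ZMod.natCast_mod, Nat.cast_add, iha c n s hA.1 hB.1,
          ihb d n s hA.2 hB.2, pow_succ, mul_comm (2 ^ n) 2, sum_range_two_mul, mul_add]
        simp only [vl_even, vl_odd]

lemma par_nil (q s : ℕ) (t' : Tr) : par q nil s t' = 0 := rfl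
lemma par_leaf (q s u : ℕ) (t' : Tr) : par q (leaf u) s t' = 0 := rfl
lemma par_node_nil (q s : ℕ) (a b : Tr) : par q (node a b) s nil = 0 := rfl
lemma par_node_node (q s : ℕ) (a0 a1 p0 p1 : Tr) : par q (node a0 a1) s (node p0 p1) =
    (par q a0 s p0 + inn q s a1 p0 + par q a1 (q - s) p1) % q := rfl

theorem par_sound (q : ℕ) : ∀ (A B : Tr) (n s : ℕ), s ≤ q → Wf n A → Wf n B →
    ((par q A s B : ℕ) : ZMod q) = (s : ZMod q) *
      ∑ K ∈ Finset.range (2 ^ n), vl (ZMod q) n A K * cobm n K (vl (ZMod q) n B) := by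
  intro A
  induction A with
  | nil =>
    intro B n s _ _ _
    rw [par_nil]
    simp [vl_nil]
  | leaf u =>
    intro B n s _ hA hB
    cases n with
    | zero => rw [par_leaf]; simp [cobm_zero]
    | succ n => exact hA.elim
  | node a0 a1 ih0 ih1 =>
    intro B n s hs hA hB
    cases n with
    | zero => exact hA.elim
    | succ n =>
      cases B with
      | nil => rw [par_node_nil]; simp [cobm_nil]
      | leaf v => exact hB.elim
      | node p0 p1 =>
        rw [par_node_node, ZMod.natCast_mod, Nat.cast_add, Nat.cast_add, ih0 p0 n s hs hA.1 hB.1,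
          ih1 p1 n (q - s) (Nat.sub_le _ _) hA.2 hB.2, inn_sound q a1 p0 n s hA.2 hB.1,
          pow_succ, mul_comm (2 ^ n) 2, sum_range_two_mul, cast_sub_sign hs]
        simp only [vl_even, vl_odd, cobm_node_even, cobm_node_odd, mul_sub,
          Finset.sum_sub_distrib]
        ring

end Tr

end Pool.Agent.Lib.MP_b64830
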