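import Mathlib

/-!
# Graded Betti numbers of the Veronese rings

Let `k` be a field and let `r, d` be natural numbers. Let `V` be the vector space with basis the
monomials of degree `d` in `y_0, …, y_r`, let `S` be the polynomial ring with one variable `x_m`
for each such monomial `m`, and let `R = R_{r,d} = ⊕_i k[y_0, …, y_r]_{d i}`, an `S`-module through
`x_m ↦ m`. The Koszul complex of the variables `x_m` is a graded free resolution of `k` over `S`,
so that `Tor_i^S(R, k)_j` is the homology, in homological degree `i` and internal degree `j`, of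
the Koszul complex `⋯ → ⋀^{i+1} V ⊗ R → ⋀^i V ⊗ R → ⋀^{i-1} V ⊗ R → ⋯`.
This is how the graded Betti numbers `β_{i,j}(k) = dim_k Tor_i^S(R_{r,d}, k)_j` are defined here.
-/

namespace Pool.Agent.Lib.MP_b64830

open MvPolynomial

/-- Exponent vectors of the monomials of degree `e` in the `r + 1` variables `y_0, …, y_r`,
ordered lexicographically. -/
abbrev Mon (r e : ℕ) : Type := {m : Lex (Fin (r + 1) → ℕ) // ∑ i, ofLex m i = e}

instance (r e : ℕ) : Finite (Mon r e) := by
  refine Finite.of_injective (β := Fin (r + 1) → Fin (e + 1))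
    (fun m i => ⟨ofLex m.1 i, Nat.lt_succ_of_le ?_⟩) ?_
  · calc ofLex m.1 i ≤ ∑ i, ofLex m.1 i :=
        Finset.single_le_sum (f := fun i => ofLex m.1 i) (fun _ _ => Nat.zero_le _)
          (Finset.mem_univ i)
      _ = e := m.2
  · intro m m' h
    apply Subtype.ext
    apply ofLex.injective
    funext i
    simpa using congrFun h i

noncomputable instance (r e : ℕ) : Fintype (Mon r e) := Fintype.ofFinite _

/-- The monomial `y^m` as a polynomial. -/
noncomputable def mono (k : Type*) [CommRing k] {r e : ℕ} (m : Mon r e) :
    MvPolynomial (Fin (r + 1)) k :=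
  monomial (Finsupp.equivFunOnFinite.symm (ofLex m.1)) 1

/-- The Koszul differential. An element `∑_F c_F e_F` of `⋀ V ⊗ k[y_0, …, y_r]`
(where `F` runs over the sets of degree-`d` monomials, and `e_F` is the exterior product of the
elements of `F` in increasing order) is stored as the function `F ↦ c_F`. The differential is
`e_F ↦ ∑_{f ∈ F} (-1)^{#{g ∈ F : g < f}} y^f e_{F ∖ {f}}`. -/
noncomputable def koszulD (k : Type*) [CommRing k] (r d : ℕ) :
    (Finset (Mon r d) → MvPolynomial (Fin (r + 1)) k) →ₗ[k]
      (Finset (Mon r d) → MvPolynomial (Fin (r + 1)) k) where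
  toFun c := fun G => ∑ f ∈ Finset.univ.filter (fun f => f ∉ G),
    (-1) ^ (G.filter (fun g => g < f)).card * (mono k f * c (insert f G))
  map_add' c c' := by
    ext1 G
    simp [mul_add, Finset.sum_add_distrib]
  map_smul' a c := by
    ext1 G
    simp [Finset.smul_sum]

/-- The part of homological degree `i` and internal degree `j` of the Koszul complex, that is
`⋀^i V ⊗ (R_{r,d})_{j-i}`: the elements `∑_F c_F e_F` with `c_F = 0` unless `F` has `i` elements
and `i ≤ j`, and in that case `c_F ∈ (R_{r,d})_{j-i} = k[y_0, …, y_r]_{d (j-i)}`. -/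
def chains (k : Type*) [CommRing k] (r d i j : ℕ) :
    Submodule k (Finset (Mon r d) → MvPolynomial (Fin (r + 1)) k) where
  carrier := {c | ∀ F, (F.card = i ∧ i ≤ j → (c F).IsHomogeneous (d * (j - i))) ∧
    (¬ (F.card = i ∧ i ≤ j) → c F = 0)}
  zero_mem' F := ⟨fun _ => isHomogeneous_zero _ _ _, fun _ => rfl⟩
  add_mem' {c c'} h h' F := ⟨fun hF => ((h F).1 hF).add ((h' F).1 hF),
    fun hF => by simp [(h F).2 hF, (h' F).2 hF]⟩
  smul_mem' a c h F := ⟨fun hF => by
      have := ((h F).1 hF)
      rw [← mem_homogeneousSubmodule] at this ⊢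
      exact Submodule.smul_mem _ a this,
    fun hF => by simp [(h F).2 hF]⟩

/-- The Koszul cycles of homological degree `i` and internal degree `j`. -/
noncomputable def cycles (k : Type*) [CommRing k] (r d i j : ℕ) :
    Submodule k (Finset (Mon r d) → MvPolynomial (Fin (r + 1)) k) :=
  chains k r d i j ⊓ LinearMap.ker (koszulD k r d)

/-- The Koszul boundaries of homological degree `i` and internal degree `j`. -/
noncomputable def boundaries (k : Type*) [CommRing k] (r d i j : ℕ) :
    Submodule k (Finset (Mon r d) → MvPolynomial (Fin (r + 1)) k) :=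
  (chains k r d (i + 1) j).map (koszulD k r d)

/-- The graded Betti number `β_{i,j}(k) = dim_k Tor_i^S(R_{r,d}, k)_j` of the `d`-uple embedding of
`ℙ^r`, computed as the dimension of the Koszul homology: cycles modulo boundaries. -/
noncomputable def betti (k : Type*) [Field k] (r d i j : ℕ) : ℕ :=
  Module.finrank k (cycles k r d i j ⧸ (boundaries k r d i j).submoduleOf (cycles k r d i j))

/-- The Betti table of the `d`-uple embedding of `ℙ^r` depends on the characteristic: two fields of
different characteristics have a different graded Betti number. -/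
def CharDependent (r d : ℕ) : Prop :=
  ∃ (k k' : Type) (_ : Field k) (_ : Field k'), ringChar k ≠ ringChar k' ∧
    ∃ i j : ℕ, betti k r d i j ≠ betti k' r d i j

/-- The least `r ≥ 1` for which there is `d ≥ 1` such that the Betti table of the `d`-uple embedding
of `ℙ^r` depends on the characteristic. -/
noncomputable def rMin : ℕ := sInf {r : ℕ | 1 ≤ r ∧ ∃ d : ℕ, 1 ≤ d ∧ CharDependent r d}

end Pool.Agent.Lib.MP_b64830
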