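import Mathlib

/-!
# Binary tries and bit masks: small verified programs used to check certificates
-/

namespace Pool.Agent.Lib.MP_b64830

/-- Binary tries storing natural numbers. -/
inductive Tr where
  | nil : Tr
  | leaf : ℕ → Tr
  | node : Tr → Tr → Tr

namespace Tr

/-- Add `v` modulo `q` to the value stored at the `n`-bit key `k`. -/
def add (q : ℕ) : ℕ → ℕ → ℕ → Tr → Tr
  | 0, _, v, leaf u => leaf ((u + v) % q)
  | 0, _, v, _ => leaf (v % q)
  | n + 1, k, v, node l r =>
    match k % 2 with
    | 0 => node (add q n (k / 2) v l) r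
    | _ => node l (add q n (k / 2) v r)
  | n + 1, k, v, _ =>
    match k % 2 with
    | 0 => node (add q n (k / 2) v nil) nil
    | _ => node nil (add q n (k / 2) v nil)

/-- The value stored at the `n`-bit key `k`. -/
def get : ℕ → ℕ → Tr → ℕ
  | 0, _, leaf u => u
  | 0, _, _ => 0
  | n + 1, k, node l r =>
    match k % 2 with
    | 0 => get n (k / 2) l
    | _ => get n (k / 2) r
  | _ + 1, _, _ => 0

/-- All stored values vanish. -/
def allZero : Tr → Bool
  | nil => true
  | leaf u => Nat.beq u 0
  | node l r => allZero l && allZero r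

/-- Add a list of (key, value) pairs. -/
def addAll (q n : ℕ) : List (ℕ × ℕ) → Tr → Tr
  | [], t => t
  | x :: l, t => addAll q n l (add q n x.1 x.2 t)

lemma get_nil (n k : ℕ) : get n k nil = 0 := by
  cases n <;> rfl

lemma mod_two_pow_succ_eq_iff (n k k' : ℕ) :
    k' % 2 ^ (n + 1) = k % 2 ^ (n + 1) ↔ k' % 2 = k % 2 ∧ (k' / 2) % 2 ^ n = (k / 2) % 2 ^ n := by
  have h (a : ℕ) : a % 2 ^ (n + 1) = a % 2 + 2 * ((a / 2) % 2 ^ n) := by
    rw [pow_succ, mul_comm, Nat.mod_mul]
  rw [h k, h k']
  omega

lemma get_add (q : ℕ) : ∀ (n k k' v : ℕ) (t : Tr),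
    ((get n k' (add q n k v t) : ℕ) : ZMod q) =
      ((get n k' t : ℕ) : ZMod q) + if k' % 2 ^ n = k % 2 ^ n then (v : ZMod q) else 0 := by
  intro n
  induction n with
  | zero =>
    intro k k' v t
    simp only [pow_zero, Nat.mod_one, if_true]
    cases t <;> simp [add, get]
  | succ n ih =>
    intro k k' v t
    have hmod : ∀ a : ℕ, a % 2 = 0 ∨ a % 2 = 1 := fun a => Nat.mod_two_eq_zero_or_one a
    have hiff := mod_two_pow_succ_eq_iff n k k'
    rcases hmod k with hk | hk <;> rcases hmod k' with hk' | hk' <;> cases t with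
    | nil =>
      simp only [add, get, hk, hk', hiff]
      first
        | (rw [ih]; simp [get_nil])
        | simp [get_nil]
    | leaf u =>
      simp only [add, get, hk, hk', hiff]
      first
        | (rw [ih]; simp [get_nil])
        | simp [get_nil]
    | node l r =>
      simp only [add, get, hk, hk', hiff]
      first
        | (rw [ih]; simp)
        | simp

lemma get_of_allZero : ∀ (t : Tr), allZero t = true → ∀ n k, get n k t = 0 := by
  intro t
  induction t with
  | nil => intro _ n k; exact get_nil n k
  | leaf u =>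
    intro h n k
    have hu : u = 0 := Nat.eq_of_beq_eq_true h
    subst hu
    cases n <;> rfl
  | node l r ihl ihr =>
    intro h n k
    rw [allZero, Bool.and_eq_true] at h
    cases n with
    | zero => rfl
    | succ n =>
      rw [get]
      rcases Nat.mod_two_eq_zero_or_one k with hk | hk
      · rw [hk]; exact ihl h.1 n _
      · rw [hk]; exact ihr h.2 n _

/-- The sum of the values of the pairs with a given key. -/
def den (A : Type*) [AddCommMonoid A] [NatCast A] (L : List (ℕ × ℕ)) (K : ℕ) : A :=
  (L.map fun x => if x.1 = K then (x.2 : A) else 0).sum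

lemma get_addAll (q n : ℕ) : ∀ (L : List (ℕ × ℕ)) (t : Tr) (K : ℕ), K < 2 ^ n →
    (∀ x ∈ L, x.1 < 2 ^ n) →
    ((get n K (addAll q n L t) : ℕ) : ZMod q) = ((get n K t : ℕ) : ZMod q) + den (ZMod q) L K := by
  intro L
  induction L with
  | nil => intro t K _ _; simp [addAll, den]
  | cons x L ih =>
    intro t K hK hL
    rw [addAll, ih _ K hK (fun y hy => hL y (List.mem_cons_of_mem _ hy)), get_add]
    have hx := hL x List.mem_cons_self
    rw [Nat.mod_eq_of_lt hK, Nat.mod_eq_of_lt hx]
    simp only [den, List.map_cons, List.sum_cons]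
    by_cases h : K = x.1
    · rw [if_pos h, if_pos h.symm]; ring
    · rw [if_neg h, if_neg (fun h' => h h'.symm)]; ring

end Tr

/-- Sign: `c` for even `s` and `q - c` for odd `s`. -/
def sgn (q c s : ℕ) : ℕ :=
  match s % 2 with
  | 0 => c
  | _ => q - c

lemma sgn_cast (q c s : ℕ) (hc : c ≤ q) : ((sgn q c s : ℕ) : ZMod q) = (-1) ^ s * (c : ZMod q) := by
  rcases Nat.mod_two_eq_zero_or_one s with h | h
  · rw [sgn, h]
    simp only
    rw [Even.neg_one_pow (Nat.even_iff.2 h), one_mul]
  · rw [sgn, h]
    simp only
    rw [Odd.neg_one_pow (Nat.odd_iff.2 h), Nat.cast_sub hc]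
    simp

/-- Number of bits of `M` in positions `i ≤ u < j`. -/
def popc (M i j : ℕ) : ℕ := ((Finset.Ico i j).filter fun u => M.testBit u = true).card

/-- The faces of the mask `M`, with signs. -/
def bdAux (q c M : ℕ) : ℕ → ℕ → ℕ → ℕ → List (ℕ × ℕ)
  | 0, _, _, _ => []
  | n + 1, pw, M', s =>
    match M' % 2 with
    | 0 => bdAux q c M n (2 * pw) (M' / 2) s
    | _ => (M ^^^ pw, sgn q c s) :: bdAux q c M n (2 * pw) (M' / 2) (s + 1)

/-- The cofaces of the mask `M`, with signs. -/
def cobdAux (q c M : ℕ) : ℕ → ℕ → ℕ → ℕ → List (ℕ × ℕ)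
  | 0, _, _, _ => []
  | n + 1, pw, M', s =>
    match M' % 2 with
    | 0 => (M ^^^ pw, sgn q c s) :: cobdAux q c M n (2 * pw) (M' / 2) s
    | _ => cobdAux q c M n (2 * pw) (M' / 2) (s + 1)

lemma testBit_eq_mod (M i : ℕ) : M.testBit i = decide ((M / 2 ^ i) % 2 = 1) := by
  exact Nat.testBit_eq_decide_div_mod_eq

lemma popc_succ_left {M i j : ℕ} (h : i < j) :
    popc M i j = (if M.testBit i = true then 1 else 0) + popc M (i + 1) j := by
  unfold popc
  rw [← Finset.insert_Ico_add_one_left_eq_Ico h, Finset.filter_insert]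
  split_ifs with h1
  · rw [Finset.card_insert_of_notMem (by simp)]
    ring
  · simp

lemma bdAux_sum {A : Type*} [AddCommMonoid A] (g : ℕ × ℕ → A) (q c M : ℕ) : ∀ (n i s : ℕ),
    ((bdAux q c M n (2 ^ i) (M / 2 ^ i) s).map g).sum =
      ∑ t ∈ Finset.range n, if M.testBit (i + t) = true then
        g (M ^^^ 2 ^ (i + t), sgn q c (s + popc M i (i + t))) else 0 := by
  intro n
  induction n with
  | zero => intro i s; simp [bdAux]
  | succ n ih =>
    intro i s
    have h2 : 2 * 2 ^ i = 2 ^ (i + 1) := by rw [pow_succ]; ring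
    have h3 : M / 2 ^ i / 2 = M / 2 ^ (i + 1) := by rw [Nat.div_div_eq_div_mul, pow_succ]
    rw [Finset.sum_range_succ']
    simp only [add_zero]
    have hp0 : popc M i i = 0 := by simp [popc]
    rcases Nat.mod_two_eq_zero_or_one (M / 2 ^ i) with h | h
    · have hb : M.testBit i = false := by rw [testBit_eq_mod, h]; rfl
      rw [bdAux, h]
      simp only
      rw [h2, h3, ih, hb]
      simp only [Bool.false_eq_true, if_false, add_zero]
      refine Finset.sum_congr rfl fun t _ => ?_
      have h4 : popc M i (i + (t + 1)) = popc M (i + 1) (i + 1 + t) := by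
        rw [popc_succ_left (by omega), hb]
        simp only [Bool.false_eq_true, if_false, zero_add]
        congr 1
        omega
      rw [h4]
      have h5 : i + (t + 1) = i + 1 + t := by omega
      rw [h5]
    · have hb : M.testBit i = true := by rw [testBit_eq_mod, h]; rfl
      rw [bdAux, h]
      simp only [List.map_cons, List.sum_cons]
      rw [h2, h3, ih, hb, hp0]
      simp only [if_true, add_zero]
      rw [add_comm]
      congr 1
      refine Finset.sum_congr rfl fun t _ => ?_
      have h4 : popc M i (i + (t + 1)) = 1 + popc M (i + 1) (i + 1 + t) := by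
        rw [popc_succ_left (by omega), hb]
        simp only [if_true]
        congr 2
        omega
      rw [h4]
      have h5 : i + (t + 1) = i + 1 + t := by omega
      have h6 : s + 1 + popc M (i + 1) (i + 1 + t) = s + (1 + popc M (i + 1) (i + 1 + t)) := by
        omega
      rw [h5, h6]

lemma cobdAux_sum {A : Type*} [AddCommMonoid A] (g : ℕ × ℕ → A) (q c M : ℕ) : ∀ (n i s : ℕ),
    ((cobdAux q c M n (2 ^ i) (M / 2 ^ i) s).map g).sum =
      ∑ t ∈ Finset.range n, if M.testBit (i + t) = true then 0 else
        g (M ^^^ 2 ^ (i + t), sgn q c (s + popc M i (i + t))) := by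
  intro n
  induction n with
  | zero => intro i s; simp [cobdAux]
  | succ n ih =>
    intro i s
    have h2 : 2 * 2 ^ i = 2 ^ (i + 1) := by rw [pow_succ]; ring
    have h3 : M / 2 ^ i / 2 = M / 2 ^ (i + 1) := by rw [Nat.div_div_eq_div_mul, pow_succ]
    rw [Finset.sum_range_succ']
    simp only [add_zero]
    have hp0 : popc M i i = 0 := by simp [popc]
    rcases Nat.mod_two_eq_zero_or_one (M / 2 ^ i) with h | h
    · have hb : M.testBit i = false := by rw [testBit_eq_mod, h]; rfl
      rw [cobdAux, h]
      simp only [List.map_cons, List.sum_cons]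
      rw [h2, h3, ih, hb, hp0]
      simp only [Bool.false_eq_true, if_false, add_zero]
      rw [add_comm]
      congr 1
      refine Finset.sum_congr rfl fun t _ => ?_
      have h4 : popc M i (i + (t + 1)) = popc M (i + 1) (i + 1 + t) := by
        rw [popc_succ_left (by omega), hb]
        simp only [Bool.false_eq_true, if_false, zero_add]
        congr 1
        omega
      rw [h4]
      have h5 : i + (t + 1) = i + 1 + t := by omega
      rw [h5]
    · have hb : M.testBit i = true := by rw [testBit_eq_mod, h]; rfl
      rw [cobdAux, h]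
      simp only
      rw [h2, h3, ih, hb]
      simp only [if_true, add_zero]
      refine Finset.sum_congr rfl fun t _ => ?_
      have h4 : popc M i (i + (t + 1)) = 1 + popc M (i + 1) (i + 1 + t) := by
        rw [popc_succ_left (by omega), hb]
        simp only [if_true]
        congr 2
        omega
      rw [h4]
      have h5 : i + (t + 1) = i + 1 + t := by omega
      have h6 : s + 1 + popc M (i + 1) (i + 1 + t) = s + (1 + popc M (i + 1) (i + 1 + t)) := by
        omega
      rw [h5, h6]

/-- Sum of the entries of the list in the positions of the bits of `M`. -/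
def wsum : List ℕ → ℕ → ℕ
  | [], _ => 0
  | c :: cs, M =>
    match M % 2 with
    | 0 => wsum cs (M / 2)
    | _ => c + wsum cs (M / 2)

lemma wsum_eq : ∀ (cs : List ℕ) (M : ℕ), wsum cs M =
    ∑ t ∈ Finset.range cs.length, if M.testBit t = true then cs.getD t 0 else 0 := by
  intro cs
  induction cs with
  | nil => intro M; simp [wsum]
  | cons c cs ih =>
    intro M
    rw [List.length_cons, Finset.sum_range_succ']
    have h0 : M.testBit 0 = decide (M % 2 = 1) := by rw [testBit_eq_mod]; simp
    have hs : ∀ t, M.testBit (t + 1) = (M / 2).testBit t := fun t => by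
      rw [Nat.testBit_succ]
    simp only [hs, List.getD_cons_succ, List.getD_cons_zero]
    rcases Nat.mod_two_eq_zero_or_one M with h | h
    · rw [wsum, h]
      simp only
      rw [ih, h0, h]
      simp
    · rw [wsum, h]
      simp only
      rw [ih, h0, h]
      simp [add_comm]

end Pool.Agent.Lib.MP_b64830
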