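import Pool.Agent.Lib.MP_b64830.Abstract
import Pool.Agent.Lib.MP_b64830.Trie

/-!
# Checking a certificate with bit masks
-/

namespace Pool.Agent.Lib.MP_b64830

open MvPolynomial

variable {r d N : ℕ} (e : Fin N ≃o Mon r d)

/-- The set of monomials encoded by a mask. -/
noncomputable def toF (M : ℕ) : Finset (Mon r d) :=
  Finset.univ.filter fun m => M.testBit (e.symm m).val = true

lemma mem_toF {M : ℕ} {m : Mon r d} : m ∈ toF e M ↔ M.testBit (e.symm m).val = true := by
  simp [toF]

lemma e_mem_toF {M : ℕ} {t : Fin N} : e t ∈ toF e M ↔ M.testBit t.val = true := by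
  simp [toF]

lemma toF_inj {M M' : ℕ} (h : M < 2 ^ N) (h' : M' < 2 ^ N) (heq : toF e M = toF e M') :
    M = M' := by
  apply Nat.eq_of_testBit_eq
  intro i
  by_cases hi : i < N
  · have h1 : e ⟨i, hi⟩ ∈ toF e M ↔ e ⟨i, hi⟩ ∈ toF e M' := by rw [heq]
    rw [e_mem_toF, e_mem_toF] at h1
    exact Bool.eq_iff_iff.2 h1
  · have h2 : 2 ^ N ≤ 2 ^ i := Nat.pow_le_pow_right (by norm_num) (not_lt.1 hi)
    rw [Nat.testBit_lt_two_pow (lt_of_lt_of_le h h2), Nat.testBit_lt_two_pow (lt_of_lt_of_le h' h2)]

lemma toF_surj (F : Finset (Mon r d)) : ∃ K < 2 ^ N, toF e K = F := by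
  classical
  refine ⟨Nat.ofBits (fun i : Fin N => decide (e i ∈ F)), Nat.ofBits_lt_two_pow _, ?_⟩
  ext m
  rw [mem_toF, Nat.testBit_ofBits_lt _ _ (e.symm m).2]
  simp

lemma testBit_xor_pow (M i j : ℕ) :
    (M ^^^ 2 ^ i).testBit j = ((M.testBit j) ^^ decide (i = j)) := by
  rw [Nat.testBit_xor, Nat.testBit_two_pow]

lemma toF_xor_of_mem {M : ℕ} {t : Fin N} (h : M.testBit t.val = true) :
    toF e (M ^^^ 2 ^ t.val) = (toF e M).erase (e t) := by
  classical
  ext m
  rw [mem_toF, testBit_xor_pow, Finset.mem_erase, mem_toF]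
  by_cases hm : m = e t
  · subst hm
    simp [h]
  · have : ¬ (t.val = (e.symm m).val) := by
      intro h'
      apply hm
      rw [Fin.ext h', OrderIso.apply_symm_apply]
    simp [hm, this]

lemma toF_xor_of_notMem {M : ℕ} {t : Fin N} (h : ¬ M.testBit t.val = true) :
    toF e (M ^^^ 2 ^ t.val) = insert (e t) (toF e M) := by
  classical
  ext m
  rw [mem_toF, testBit_xor_pow, Finset.mem_insert, mem_toF]
  by_cases hm : m = e t
  · subst hm
    simp [h]
  · have : ¬ (t.val = (e.symm m).val) := by
      intro h'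
      apply hm
      rw [Fin.ext h', OrderIso.apply_symm_apply]
    simp [hm, this]

lemma xor_lt {M i : ℕ} (h : M < 2 ^ N) (hi : i < N) : M ^^^ 2 ^ i < 2 ^ N :=
  Nat.xor_lt_two_pow h (Nat.pow_lt_pow_right (by norm_num) hi)

lemma sg_toF (M : ℕ) (t : Fin N) : sg (toF e M) (e t) = (-1) ^ popc M 0 t.val := by
  classical
  unfold sg popc
  congr 1
  refine Finset.card_bij' (fun m _ => (e.symm m).val)
    (fun u hu => e ⟨u, lt_of_lt_of_le
      (Finset.mem_Ico.1 (Finset.mem_filter.1 hu).1).2 t.2.le⟩) ?_ ?_ ?_ ?_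
  · intro m hm
    simp only [Finset.mem_filter, mem_toF, Finset.mem_Ico] at hm ⊢
    refine ⟨⟨Nat.zero_le _, ?_⟩, hm.1⟩
    have := hm.2
    have h2 : e.symm m < t := by
      rw [← e.symm_apply_apply t]
      exact e.symm.strictMono this
    exact h2
  · intro u hu
    simp only [Finset.mem_filter, mem_toF, Finset.mem_Ico, OrderIso.symm_apply_apply] at hu ⊢
    exact ⟨hu.2, e.strictMono (by exact hu.1.2)⟩
  · intro m hm
    simp
  · intro u hu
    simp

/-- integer function on sets defined by a list of (mask, coefficient) -/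
noncomputable def fn (L : List (ℕ × ℕ)) (F : Finset (Mon r d)) : ℤ :=
  (L.map fun x => if toF e x.1 = F then (x.2 : ℤ) else 0).sum

/-- faces of all entries -/
def bdAll (q N : ℕ) (L : List (ℕ × ℕ)) : List (ℕ × ℕ) :=
  L.flatMap fun x => bdAux q x.2 x.1 N 1 x.1 0

/-- cofaces of all entries -/
def cobdAll (q N : ℕ) (L : List (ℕ × ℕ)) : List (ℕ × ℕ) :=
  L.flatMap fun x => cobdAux q x.2 x.1 N 1 x.1 0

lemma sum_map_flatMap {α β A : Type*} [AddCommMonoid A] (L : List α) (f : α → List β) (g : β → A) :
    ((L.flatMap f).map g).sum = (L.map fun x => ((f x).map g).sum).sum := by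
  induction L with
  | nil => simp
  | cons a L ih => simp [ih]

lemma bdAux_sum0 {A : Type*} [AddCommMonoid A] (g : ℕ × ℕ → A) (q c M n : ℕ) :
    ((bdAux q c M n 1 M 0).map g).sum =
      ∑ t : Fin n, if M.testBit t.val = true then
        g (M ^^^ 2 ^ t.val, sgn q c (popc M 0 t.val)) else 0 := by
  have h := bdAux_sum g q c M n 0 0
  simp only [pow_zero, Nat.div_one, zero_add] at h
  rw [h, Finset.sum_range]

lemma cobdAux_sum0 {A : Type*} [AddCommMonoid A] (g : ℕ × ℕ → A) (q c M n : ℕ) :
    ((cobdAux q c M n 1 M 0).map g).sum =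
      ∑ t : Fin n, if M.testBit t.val = true then 0 else
        g (M ^^^ 2 ^ t.val, sgn q c (popc M 0 t.val)) := by
  have h := cobdAux_sum g q c M n 0 0
  simp only [pow_zero, Nat.div_one, zero_add] at h
  rw [h, Finset.sum_range]

lemma list_sum_finset_sum {α β A : Type*} [AddCommMonoid A] (L : List α) (s : Finset β)
    (g : α → β → A) : (L.map fun x => ∑ b ∈ s, g x b).sum = ∑ b ∈ s, (L.map fun x => g x b).sum := by
  induction L with
  | nil => simp
  | cons a L ih => simp [ih, Finset.sum_add_distrib]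

lemma cast_list_sum {α : Type*} (q : ℕ) (L : List α) (g : α → ℤ) :
    (((L.map g).sum : ℤ) : ZMod q) = (L.map fun x => ((g x : ℤ) : ZMod q)).sum := by
  induction L with
  | nil => simp
  | cons a L ih => simp [ih]

lemma boundary_eq_den (q : ℕ) (L : List (ℕ × ℕ)) (hL : ∀ x ∈ L, x.1 < 2 ^ N) (hq : ∀ x ∈ L, x.2 ≤ q)
    (K : ℕ) (hK : K < 2 ^ N) :
    ((∑ f ∈ Finset.univ.filter (fun f => f ∉ toF e K),
      sg (toF e K) f * fn e L (insert f (toF e K)) : ℤ) : ZMod q) =
      Tr.den (ZMod q) (bdAll q N L) K := by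
  classical
  have h1 : (∑ f ∈ Finset.univ.filter (fun f => f ∉ toF e K),
      sg (toF e K) f * fn e L (insert f (toF e K)) : ℤ) =
      (L.map fun x => ∑ f ∈ Finset.univ.filter (fun f => f ∉ toF e K),
        if toF e x.1 = insert f (toF e K) then sg (toF e K) f * (x.2 : ℤ) else 0).sum := by
    rw [list_sum_finset_sum]
    refine Finset.sum_congr rfl fun f _ => ?_
    unfold fn
    rw [← List.sum_map_mul_left]
    congr 1
    refine List.map_congr_left fun x _ => ?_
    split_ifs <;> simp
  rw [h1, cast_list_sum, Tr.den, bdAll, sum_map_flatMap]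
  congr 1
  refine List.map_congr_left fun x hx => ?_
  rw [bdAux_sum0]
  simp only
  rw [Int.cast_sum]
  have h2 : (Finset.univ.filter (fun f => f ∉ toF e K)) =
      (Finset.univ.filter (fun t : Fin N => e t ∉ toF e K)).map e.toEquiv.toEmbedding := by
    ext m
    simp only [Finset.mem_filter, Finset.mem_univ, true_and, Finset.mem_map,
      Equiv.coe_toEmbedding]
    constructor
    · intro h
      exact ⟨e.symm m, by simpa using h, by simp⟩
    · rintro ⟨t, ht, rfl⟩
      exact ht
  rw [h2, Finset.sum_map, Finset.sum_filter]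
  refine Finset.sum_congr rfl fun t _ => ?_
  simp only [Equiv.coe_toEmbedding]
  have hxN := hL x hx
  have het : (e.toEquiv t) = e t := rfl
  rw [het]
  by_cases hb : x.1.testBit t.val = true
  · rw [if_pos hb]
    have h3 := toF_xor_of_mem e hb
    have h4 := xor_lt hxN t.2
    by_cases h5 : x.1 ^^^ 2 ^ t.val = K
    · rw [if_pos h5]
      have h6 : toF e K = (toF e x.1).erase (e t) := by rw [← h5, h3]
      have h7 : e t ∉ toF e K := by rw [h6]; exact Finset.notMem_erase _ _
      have h8 : toF e x.1 = insert (e t) (toF e K) := by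
        rw [h6, Finset.insert_erase (e_mem_toF e |>.2 hb)]
      rw [if_pos h7, if_pos h8, sgn_cast q _ _ (hq x hx), h6, sg_erase, sg_toF]
      push_cast
      ring
    · rw [if_neg h5]
      by_cases h6 : e t ∉ toF e K
      · rw [if_pos h6, if_neg, Int.cast_zero]
        intro h7
        apply h5
        apply toF_inj e h4 hK
        rw [h3, h7, Finset.erase_insert h6]
      · rw [if_neg h6]
  · rw [if_neg hb]
    by_cases h6 : e t ∉ toF e K
    · rw [if_pos h6, if_neg, Int.cast_zero]
      intro h7
      apply hb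
      rw [← e_mem_toF e, h7]
      exact Finset.mem_insert_self _ _
    · rw [if_neg h6]

lemma coboundary_eq_den (q : ℕ) (L : List (ℕ × ℕ)) (hL : ∀ x ∈ L, x.1 < 2 ^ N)
    (hq : ∀ x ∈ L, x.2 ≤ q) (K : ℕ) (hK : K < 2 ^ N) :
    ((∑ f ∈ toF e K, sg (toF e K) f * fn e L ((toF e K).erase f) : ℤ) : ZMod q) =
      Tr.den (ZMod q) (cobdAll q N L) K := by
  classical
  have h1 : (∑ f ∈ toF e K, sg (toF e K) f * fn e L ((toF e K).erase f) : ℤ) =
      (L.map fun x => ∑ f ∈ toF e K,
        if toF e x.1 = (toF e K).erase f then sg (toF e K) f * (x.2 : ℤ) else 0).sum := by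
    rw [list_sum_finset_sum]
    refine Finset.sum_congr rfl fun f _ => ?_
    unfold fn
    rw [← List.sum_map_mul_left]
    congr 1
    refine List.map_congr_left fun x _ => ?_
    split_ifs <;> simp
  rw [h1, cast_list_sum, Tr.den, cobdAll, sum_map_flatMap]
  congr 1
  refine List.map_congr_left fun x hx => ?_
  rw [cobdAux_sum0]
  simp only
  rw [Int.cast_sum]
  have h2 : toF e K =
      (Finset.univ.filter (fun t : Fin N => e t ∈ toF e K)).map e.toEquiv.toEmbedding := by
    ext m
    simp only [Finset.mem_filter, Finset.mem_univ, true_and, Finset.mem_map,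
      Equiv.coe_toEmbedding]
    constructor
    · intro h
      exact ⟨e.symm m, by simpa using h, by simp⟩
    · rintro ⟨t, ht, rfl⟩
      exact ht
  have h2' : ∀ g : Mon r d → ZMod q, ∑ f ∈ toF e K, g f =
      ∑ t : Fin N, if e t ∈ toF e K then g (e t) else 0 := by
    intro g
    conv_lhs => rw [h2]
    rw [Finset.sum_map, Finset.sum_filter]
    rfl
  rw [h2' (fun f => ((if toF e x.1 = (toF e K).erase f then sg (toF e K) f * (x.2 : ℤ) else 0 : ℤ) :
    ZMod q))]
  refine Finset.sum_congr rfl fun t _ => ?_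
  have hxN := hL x hx
  by_cases hb : x.1.testBit t.val = true
  · rw [if_pos hb]
    by_cases h6 : e t ∈ toF e K
    · rw [if_pos h6, if_neg, Int.cast_zero]
      intro h7
      have h8 : e t ∈ toF e x.1 := (e_mem_toF e).2 hb
      rw [h7] at h8
      exact Finset.notMem_erase _ _ h8
    · rw [if_neg h6]
  · rw [if_neg hb]
    have h3 := toF_xor_of_notMem e hb
    have h4 := xor_lt hxN t.2
    by_cases h5 : x.1 ^^^ 2 ^ t.val = K
    · rw [if_pos h5]
      have h9 : e t ∉ toF e x.1 := fun h => hb ((e_mem_toF e).1 h)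
      have h6 : toF e K = insert (e t) (toF e x.1) := by rw [← h5, h3]
      have h7 : e t ∈ toF e K := by rw [h6]; exact Finset.mem_insert_self _ _
      have h8 : toF e x.1 = (toF e K).erase (e t) := by
        rw [h6, Finset.erase_insert h9]
      rw [if_pos h7, if_pos h8, sgn_cast q _ _ (hq x hx), ← sg_erase, ← h8, sg_toF]
      push_cast
      ring
    · rw [if_neg h5]
      by_cases h6 : e t ∈ toF e K
      · rw [if_pos h6, if_neg, Int.cast_zero]
        intro h7
        apply h5
        apply toF_inj e h4 hK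
        rw [h3, h7, Finset.insert_erase h6]
      · rw [if_neg h6]

/-- The check that the exponents of a mask are bounded: one list of exponents for each variable. -/
def okM : List (List ℕ) → List ℕ → ℕ → Bool
  | c :: cs, a :: as, M => Nat.ble (wsum c M) a && okM cs as M
  | _, _, _ => true

lemma okM_iff : ∀ (cols : List (List ℕ)) (al : List ℕ) (M : ℕ), cols.length = al.length →
    (okM cols al M = true ↔ ∀ x < cols.length, wsum (cols.getD x []) M ≤ al.getD x 0) := by
  intro cols
  induction cols with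
  | nil => intro al M _; simp [okM]
  | cons c cs ih =>
    intro al M h
    cases al with
    | nil => simp at h
    | cons a as =>
      rw [okM, Bool.and_eq_true, Nat.ble_eq, ih as M (by simpa using h)]
      constructor
      · rintro ⟨h1, h2⟩ x hx
        cases x with
        | zero => simpa using h1
        | succ x => simpa using h2 x (by simpa using hx)
      · intro h1
        refine ⟨by simpa using h1 0 (by simp), fun x hx => ?_⟩
        simpa using h1 (x + 1) (by simpa using hx)

/-- The pairing of a list of (mask, value) with the values of a trie. -/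
def pairing (q n : ℕ) (T : Tr) : List (ℕ × ℕ) → ℕ → ℕ
  | [], acc => acc
  | x :: l, acc => pairing q n T l ((acc + x.2 * Tr.get n x.1 T) % q)

lemma pairing_cast (q n : ℕ) (T : Tr) : ∀ (L : List (ℕ × ℕ)) (acc : ℕ),
    ((pairing q n T L acc : ℕ) : ZMod q) =
      (acc : ZMod q) + (L.map fun x => (x.2 : ZMod q) * ((Tr.get n x.1 T : ℕ) : ZMod q)).sum := by
  intro L
  induction L with
  | nil => intro acc; simp [pairing]
  | cons x L ih =>
    intro acc
    rw [pairing, ih, List.map_cons, List.sum_cons, ZMod.natCast_mod]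
    push_cast
    ring

/-- All keys are below `2^N` and all values at most `q`. -/
def bounded (N q : ℕ) : List (ℕ × ℕ) → Bool
  | [] => true
  | x :: l => Nat.blt x.1 (2 ^ N) && Nat.ble x.2 q && bounded N q l

lemma bounded_iff (N q : ℕ) : ∀ L : List (ℕ × ℕ), bounded N q L = true ↔
    (∀ x ∈ L, x.1 < 2 ^ N) ∧ (∀ x ∈ L, x.2 ≤ q) := by
  intro L
  induction L with
  | nil => simp [bounded]
  | cons x L ih =>
    simp only [bounded, Bool.and_eq_true, ih, Nat.ble_eq, Nat.blt_eq, List.mem_cons,
      forall_eq_or_imp]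
    tauto

/-- All entries pass the exponent check and have `c` bits. -/
def allOk (cols : List (List ℕ)) (al ones : List ℕ) (c : ℕ) : List (ℕ × ℕ) → Bool
  | [] => true
  | x :: l => okM cols al x.1 && Nat.beq (wsum ones x.1) c && allOk cols al ones c l

lemma allOk_iff (cols : List (List ℕ)) (al ones : List ℕ) (c : ℕ) : ∀ L : List (ℕ × ℕ),
    allOk cols al ones c L = true ↔ ∀ x ∈ L, okM cols al x.1 = true ∧ wsum ones x.1 = c := by
  intro L
  induction L with
  | nil => simp [allOk]
  | cons x L ih =>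
    simp only [allOk, Bool.and_eq_true, ih, List.mem_cons, forall_eq_or_imp, Nat.beq_eq]

end Pool.Agent.Lib.MP_b64830
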